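import Pool.Agent.Helper78.LE.LBDefs

/-!
Project LP (MP_d7f1f6_an): linear programming lower bound for the logarithmic energy on the
sphere.  Definitions.
-/

set_option autoImplicit false

open MeasureTheory Set Filter Topology

namespace Pool.Agent.Helper7.LP

open Pool.Agent.Helper78.LE

/-- energy of a finite family for the potential `V` of the distance, ordered pairs `i ≠ j` -/
noncomputable def vE (V : ℝ → ℝ) {n N : ℕ} (x : Fin N → EV n) : ℝ :=
  ∑ i, ∑ j, if i = j then 0 else V ‖x i - x j‖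

/-- energy of the pairs with the same label -/
noncomputable def labV (V : ℝ → ℝ) {d n K : ℕ} (κ : Fin n → Fin K) (p : Fin n → EV d) : ℝ :=
  ∑ i, ∑ j, if i ≠ j ∧ κ i = κ j then V ‖p i - p j‖ else 0

/-- cosine transform -/
noncomputable def cosT {d : ℕ} (F : EV d → ℝ) (x : EV d) : ℝ :=
  ∫ ξ, F ξ * Real.cos (inner ℝ ξ x)

/-- the potential `E₁(a r²) = ∫_a^∞ exp (-t r²) dt / t` -/
noncomputable def VV (a r : ℝ) : ℝ := ∫ t in Ioi a, Real.exp (-(t * r ^ 2)) / t

/-- `-γ - log a` -/
noncomputable def EI (a : ℝ) : ℝ :=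
  (∫ t in Ioc 0 a, (Real.exp (-t) - 1) / t) + ∫ t in Ioi a, Real.exp (-t) / t

end Pool.Agent.Helper7.LP
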