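import Pool.Agent.Helper78.LE.LE3
import Pool.Agent.Helper78.LE.LB17
import Pool.Agent.Helper7.LP.Defs

/-!
Project LP: the surface area of even dimensional spheres, and the constant `EI`.
-/

set_option autoImplicit false

open MeasureTheory Set Filter Topology

namespace Pool.Agent.Helper7.LP

open Pool.Agent.Helper78.LE

theorem sphArea_even (k : ℕ) : sphArea (2 * k) =
    2 * (2 * Real.pi) ^ k / ((2 * k - 1).doubleFactorial : ℕ) := by
  unfold sphArea sphMeas
  have h0 : ((volume : Measure (EV (2 * k + 1))).toSphere univ).toReal =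
      ((volume : Measure (EV (2 * k + 1))).toSphere).real univ := rfl
  rw [h0, Measure.toSphere_real_apply_univ, Measure.real, EuclideanSpace.volume_ball]
  have hfr : Module.finrank ℝ (EV (2 * k + 1)) = 2 * k + 1 := by simp
  rw [hfr, Fintype.card_fin, ENNReal.ofReal_one, one_pow, one_mul]
  have h1 : (((2 * k + 1 : ℕ) : ℝ) / 2 + 1) = ((k + 1 : ℕ) : ℝ) + 1 / 2 := by
    push_cast
    ring
  rw [h1, Real.Gamma_nat_add_half]
  have h2 : (2 * (k + 1) - 1).doubleFactorial = (2 * k + 1) * (2 * k - 1).doubleFactorial := by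
    rcases k with _ | k
    · rfl
    · have e1 : 2 * (k + 1 + 1) - 1 = (2 * (k + 1) - 1) + 2 := by omega
      rw [e1, Nat.doubleFactorial_add_two]
      congr 1
  rw [h2]
  have hpi : (0 : ℝ) < √Real.pi := Real.sqrt_pos.2 Real.pi_pos
  have hdf : (0 : ℝ) < ((2 * k - 1).doubleFactorial : ℕ) := by
    exact_mod_cast Nat.doubleFactorial_pos _
  rw [ENNReal.toReal_ofReal (by positivity)]
  have h3 : √Real.pi ^ (2 * k + 1) = Real.pi ^ k * √Real.pi := by
    rw [pow_succ, pow_mul, Real.sq_sqrt Real.pi_pos.le]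
  rw [h3]
  push_cast
  rw [mul_pow]
  field_simp
  ring

theorem EI_eq (a : ℝ) (ha : 0 < a) : EI a = -Real.log a - Real.eulerMascheroniConstant := by
  unfold EI
  rw [← exp_int a ha, intervalIntegral.integral_of_le ha.le]

end Pool.Agent.Helper7.LP
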