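import Pool.Agent.Helper7.LP.Defs
import Pool.Agent.Helper78.LE.LB15

/-!
Project LP: the lower bound for the minimal logarithmic energy from the local bound for the
potential `VV a`.
-/

set_option autoImplicit false

open MeasureTheory Set Filter Topology

namespace Pool.Agent.Helper7.LP

open Pool.Agent.Helper78.LE

variable {d : ℕ}

theorem VV_int (a r : ℝ) (ha : 0 < a) (hr : 0 < r) :
    IntegrableOn (fun t => Real.exp (-(t * r ^ 2)) / t) (Ioi a) := by
  have h1 : IntegrableOn (fun t => Real.exp (-(r ^ 2) * t) * (1 / a)) (Ioi a) :=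
    (exp_neg_integrableOn_Ioi a (by positivity)).mul_const _
  refine h1.mono' ?_ ?_
  · exact (by fun_prop : Measurable fun t : ℝ => Real.exp (-(t * r ^ 2)) / t).aestronglyMeasurable
  · refine (ae_restrict_iff' measurableSet_Ioi).2 (ae_of_all _ fun t ht => ?_)
    have ht' : a < t := ht
    have ht0 : 0 < t := ha.trans ht'
    rw [Real.norm_eq_abs, abs_of_pos (by positivity), div_eq_mul_one_div]
    have h2 : -(t * r ^ 2) = -(r ^ 2) * t := by ring
    rw [h2]
    gcongr

theorem vE_eq {n N : ℕ} (a ρ : ℝ) (ha : 0 < a) (hρ : 0 < ρ) (x : Fin N → EV n)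
    (hinj : Function.Injective x) :
    IntegrableOn (fun t => gE (t * ρ) x / t) (Ioi a) ∧
      vE (fun r => VV a (√ρ * r)) x = ∫ t in Ioi a, gE (t * ρ) x / t := by
  have h1 : ∀ t : ℝ, gE (t * ρ) x / t = ∑ i, ∑ j, if i = j then 0 else
      Real.exp (-(t * (√ρ * ‖x i - x j‖) ^ 2)) / t := by
    intro t
    unfold gE gau
    rw [Finset.sum_div]
    refine Finset.sum_congr rfl fun i _ => ?_
    rw [Finset.sum_div]
    refine Finset.sum_congr rfl fun j _ => ?_
    split_ifs
    · rw [zero_div]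
    · rw [mul_pow, Real.sq_sqrt hρ.le, mul_assoc]
  have h2 : ∀ i j : Fin N, IntegrableOn (fun t => if i = j then (0 : ℝ) else
      Real.exp (-(t * (√ρ * ‖x i - x j‖) ^ 2)) / t) (Ioi a) := by
    intro i j
    by_cases hij : i = j
    · simp only [if_pos hij]
      exact integrableOn_zero
    · simp only [if_neg hij]
      refine VV_int a _ ha (mul_pos (Real.sqrt_pos.2 hρ) ?_)
      exact norm_pos_iff.2 (sub_ne_zero.2 fun h => hij (hinj h))
  have h3 : (fun t => gE (t * ρ) x / t) = fun t => ∑ i, ∑ j, if i = j then 0 else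
      Real.exp (-(t * (√ρ * ‖x i - x j‖) ^ 2)) / t := funext h1
  rw [h3]
  refine ⟨integrable_finsetSum _ fun i _ => integrable_finsetSum _ fun j _ => h2 i j, ?_⟩
  rw [integral_finsetSum _ fun i _ => integrable_finsetSum _ fun j _ => h2 i j]
  unfold vE
  refine Finset.sum_congr rfl fun i _ => ?_
  rw [integral_finsetSum _ fun j _ => h2 i j]
  refine Finset.sum_congr rfl fun j _ => ?_
  by_cases hij : i = j
  · simp [hij]
  · simp only [if_neg hij]
    rfl

theorem exp_div_int (a : ℝ) (ha : 0 < a) : IntegrableOn (fun t => Real.exp (-t) / t) (Ioi a) := by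
  have h := VV_int a 1 ha one_pos
  refine h.congr_fun ?_ measurableSet_Ioi
  intro t _
  simp

theorem gS_split (hd : 0 < d) (a : ℝ) (ha : 0 < a) {N : ℕ} (hN : 0 < N)
    (x : Fin N → EV (d + 1)) (hx : ∀ i, ‖x i‖ = 1) (hinj : Function.Injective x) :
    IntegrableOn (fun t => N * gS d (t * rate d N) / t) (Ioi a) ∧
    ∫ t in Ioi a, LB15.JJ x t = vE (fun r => VV a (√(rate d N) * r)) x / N -
      (∫ t in Ioi a, N * gS d (t * rate d N) / t) + ∫ t in Ioi a, Real.exp (-t) / t := by
  obtain ⟨h1, h2⟩ := vE_eq a (rate d N) ha (LB15.rate_pos d hN) x hinj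
  have h3 : IntegrableOn (LB15.JJ x) (Ioi a) :=
    (LB15.JJ_int hd hN x hx hinj).mono_set (Ioi_subset_Ioi ha.le)
  have h4 := exp_div_int a ha
  have h5 : (fun t => N * gS d (t * rate d N) / t) = fun t =>
      gE (t * rate d N) x / t / N + Real.exp (-t) / t - LB15.JJ x t := by
    funext t
    unfold LB15.JJ
    ring
  have h6 : IntegrableOn (fun t => N * gS d (t * rate d N) / t) (Ioi a) := by
    rw [h5]
    exact ((h1.div_const _).add h4).sub h3
  refine ⟨h6, ?_⟩
  have h7 : LB15.JJ x = fun t => gE (t * rate d N) x / t / N - N * gS d (t * rate d N) / t +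
      Real.exp (-t) / t := by
    funext t
    unfold LB15.JJ
    ring
  have h8 : IntegrableOn (fun t => gE (t * rate d N) x / t / N) (Ioi a) := h1.div_const _
  have h9 : IntegrableOn (fun t => gE (t * rate d N) x / t / N - N * gS d (t * rate d N) / t)
      (Ioi a) := h8.sub h6
  simp only [h7]
  rw [integral_add h9 h4, integral_sub h8 h6, integral_div, h2]

theorem gS_int_lim (hd : 0 < d) (a : ℝ) (ha : 0 < a) :
    Tendsto (fun N : ℕ => ∫ t in Ioi a, N * gS d (t * rate d N) / t) atTop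
      (𝓝 (2 / d * (Real.pi / a) ^ ((d : ℝ) / 2))) := by
  obtain ⟨C, hC, hCb⟩ := gS_bound hd
  have hd' : (0 : ℝ) < d := by positivity
  have hval : ∫ t in Ioi a, (Real.pi / t) ^ ((d : ℝ) / 2) / t =
      2 / d * (Real.pi / a) ^ ((d : ℝ) / 2) := by
    have e1 : ∀ t ∈ Ioi a, (Real.pi / t) ^ ((d : ℝ) / 2) / t =
        Real.pi ^ ((d : ℝ) / 2) * t ^ (-((d : ℝ) / 2) - 1) := by
      intro t ht
      have ht0 : 0 < t := ha.trans ht
      rw [Real.div_rpow Real.pi_pos.le ht0.le, Real.rpow_sub ht0, Real.rpow_neg ht0.le,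
        Real.rpow_one]
      have : t ^ ((d : ℝ) / 2) ≠ 0 := (Real.rpow_pos_of_pos ht0 _).ne'
      field_simp
    rw [setIntegral_congr_fun measurableSet_Ioi e1, integral_const_mul,
      integral_Ioi_rpow_of_lt (by linarith) ha, Real.div_rpow Real.pi_pos.le ha.le]
    have e2 : -((d : ℝ) / 2) - 1 + 1 = -((d : ℝ) / 2) := by ring
    rw [e2, Real.rpow_neg ha.le]
    have : a ^ ((d : ℝ) / 2) ≠ 0 := (Real.rpow_pos_of_pos ha _).ne'
    field_simp
  rw [← hval]
  refine tendsto_integral_filter_of_dominated_convergence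
    (fun t => C * sphArea d * t ^ (-(d : ℝ) / 2 - 1)) ?_ ?_
    ((integrableOn_Ioi_rpow_of_lt (by linarith) ha).const_mul _) ?_
  · filter_upwards [eventually_gt_atTop 0] with N hN
    obtain ⟨x, hx, hi⟩ := LB15.exists_conf hd N
    exact (gS_split hd a ha hN x hx hi).1.aestronglyMeasurable
  · filter_upwards [eventually_gt_atTop 0] with N hN
    refine (ae_restrict_iff' measurableSet_Ioi).2 (ae_of_all _ fun t ht => ?_)
    have ht0 : 0 < t := ha.trans ht
    have hr := LB15.rate_pos d hN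
    have htr : 0 < t * rate d N := mul_pos ht0 hr
    have hN' : (0 : ℝ) < N := Nat.cast_pos.2 hN
    have hg : 0 ≤ gS d (t * rate d N) := by
      unfold gS
      refine div_nonneg (integral_nonneg fun y => integral_nonneg fun z => ?_) (sq_nonneg _)
      exact (Real.exp_pos _).le
    have h3 := hCb (t * rate d N) htr
    have h4 : (N : ℝ) * gS d (t * rate d N) ≤ C * sphArea d * t ^ (-(d : ℝ) / 2) := by
      calc (N : ℝ) * gS d (t * rate d N) ≤ N * (C * (t * rate d N) ^ (-(d : ℝ) / 2)) :=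
            mul_le_mul_of_nonneg_left h3 hN'.le
        _ = C * sphArea d * t ^ (-(d : ℝ) / 2) := by
            have e1 : (-(d : ℝ) / 2) = -((d : ℝ) / 2) := by ring
            rw [e1, Real.mul_rpow ht0.le hr.le, Real.rpow_neg hr.le, LB15.rate_rpow hd]
            have := (sphArea_pos d).ne'
            field_simp
    rw [Real.norm_eq_abs, abs_of_nonneg (by positivity), Real.rpow_sub ht0, Real.rpow_one,
      ← mul_div_assoc]
    gcongr
  · refine (ae_restrict_iff' measurableSet_Ioi).2 (ae_of_all _ fun t ht => ?_)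
    have ht0 : 0 < t := ha.trans ht
    exact (LB15.gS_lim hd t ht0).div_const _

theorem head_int (a : ℝ) (ha : 0 < a) : IntegrableOn (fun t => (Real.exp (-t) - 1) / t) (Ioc 0 a) := by
  have h1 : IntegrableOn (fun _ : ℝ => (1 : ℝ)) (Ioc 0 a) := integrableOn_const (by simp)
  refine h1.mono' ?_ ?_
  · exact (by fun_prop : Measurable fun t : ℝ => (Real.exp (-t) - 1) / t).aestronglyMeasurable
  · refine (ae_restrict_iff' measurableSet_Ioc).2 (ae_of_all _ fun t ht => ?_)
    have h2 : 0 < t := ht.1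
    have h3 := Real.add_one_le_exp (-t)
    have h4 : Real.exp (-t) ≤ 1 := Real.exp_le_one_iff.2 (by linarith)
    rw [Real.norm_eq_abs, abs_div, abs_of_pos h2, div_le_one h2, abs_le]
    constructor <;> linarith

theorem head_ge (hd : 0 < d) (a : ℝ) (ha : 0 < a) {N : ℕ} (hN : 0 < N)
    (x : Fin N → EV (d + 1)) (hx : ∀ i, ‖x i‖ = 1) (hinj : Function.Injective x) :
    ∫ t in Ioc 0 a, (Real.exp (-t) - 1) / t ≤ ∫ t in Ioc 0 a, LB15.JJ x t := by
  refine setIntegral_mono_on (head_int a ha)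
    ((LB15.JJ_int hd hN x hx hinj).mono_set Ioc_subset_Ioi_self) measurableSet_Ioc ?_
  intro t ht
  have ht0 : 0 < t := ht.1
  have hN' : (0 : ℝ) < N := Nat.cast_pos.2 hN
  have hr := LB15.rate_pos d hN
  have htr : 0 < t * rate d N := mul_pos ht0 hr
  have h1 := gE_ge (t * rate d N) htr x hx
  have h2 : (N : ℝ) * gS d (t * rate d N) - 1 ≤ gE (t * rate d N) x / N := by
    rw [le_div_iff₀ hN']
    nlinarith [h1]
  unfold LB15.JJ
  gcongr
  linarith

theorem lower_V (hd : 0 < d) (a c : ℝ) (ha : 0 < a)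
    (hloc : ∀ ε : ℝ, 0 < ε → ∀ᶠ N : ℕ in atTop, ∀ x : Fin N → EV (d + 1), (∀ i, ‖x i‖ = 1) →
      Function.Injective x → N * (c - ε) ≤ vE (fun r => VV a (√(rate d N) * r)) x)
    (ε : ℝ) (hε : 0 < ε) :
    ∀ᶠ N : ℕ in atTop, Vlog d * (N : ℝ) ^ 2 - 1 / d * (N * Real.log N) +
      (1 / d * Real.log (sphArea d) +
        1 / 2 * (EI a - 2 / d * (Real.pi / a) ^ ((d : ℝ) / 2) + c) - ε) * N ≤ minLog d N := by
  choose X hX hXi hXe using fun N => LB15.exists_near hd N
  have h1 := hloc (ε / 2) (by positivity)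
  have h2 : ∀ᶠ N : ℕ in atTop, 2 / ε ≤ (N : ℝ) :=
    tendsto_natCast_atTop_atTop.eventually_ge_atTop _
  have h3 := (gS_int_lim hd a ha).eventually (gt_mem_nhds
    (show 2 / d * (Real.pi / a) ^ ((d : ℝ) / 2) < 2 / d * (Real.pi / a) ^ ((d : ℝ) / 2) + ε / 2 by
      linarith))
  filter_upwards [h1, h2, h3, eventually_gt_atTop 0] with N g1 g2 g3 hN
  have hN' : (0 : ℝ) < N := Nat.cast_pos.2 hN
  have k1 := g1 (X N) (hX N) (hXi N)
  have k2 := (gS_split hd a ha hN (X N) (hX N) (hXi N)).2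
  have k3 := head_ge hd a ha hN (X N) (hX N) (hXi N)
  have k4 := LB15.JJ_val hd hN (X N) (hX N) (hXi N)
  have k5 := LB15.JJ_int hd hN (X N) (hX N) (hXi N)
  rw [← Ioc_union_Ioi_eq_Ioi ha.le, setIntegral_union (Ioc_disjoint_Ioi le_rfl) measurableSet_Ioi
    (k5.mono_set Ioc_subset_Ioi_self) (k5.mono_set (Ioi_subset_Ioi ha.le)), k2] at k4
  have k6 : c - ε / 2 ≤ vE (fun r => VV a (√(rate d N) * r)) (X N) / N := by
    rw [le_div_iff₀ hN']
    linarith
  set P := 2 / (d : ℝ) * (Real.pi / a) ^ ((d : ℝ) / 2) with hP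
  have k7 : EI a - P + c - ε ≤ 2 * ((logEnergy (X N) - Vlog d * (N : ℝ) ^ 2) / N) +
      2 / d * (Real.log N - Real.log (sphArea d)) := by
    rw [← k4]
    unfold EI
    linarith
  have g4 : 2 ≤ ε * N := by
    rw [div_le_iff₀ hε] at g2
    linarith
  have g5 := hXe N
  have hd' : (d : ℝ) ≠ 0 := by positivity
  have g6 : (EI a - P + c - ε) * N ≤
      2 * (logEnergy (X N) - Vlog d * (N : ℝ) ^ 2) +
        2 / d * (Real.log N - Real.log (sphArea d)) * N := by
    have := mul_le_mul_of_nonneg_right k7 hN'.le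
    refine this.trans (le_of_eq ?_)
    field_simp
  have g7 : 2 / (d : ℝ) * (Real.log N - Real.log (sphArea d)) * N =
      2 * (1 / d * (N * Real.log N) - 1 / d * Real.log (sphArea d) * N) := by ring
  rw [g7] at g6
  nlinarith [g4, g5, g6]

end Pool.Agent.Helper7.LP
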