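import Pool.Agent.Helper7.LP.PosDef
import Pool.Agent.Helper78.LE.LB8

/-!
Project LP: the box lemma.
-/

set_option autoImplicit false

open MeasureTheory Set Filter Topology

namespace Pool.Agent.Helper7.LP

open Pool.Agent.Helper78.LE
open Pool.Agent.Helper78.LE.LB8 (cub cub_meas cub_vol)

variable {d : ℕ}

theorem box_cont (F : EV d → ℝ) (hF : Integrable F) : Continuous (cosT F) := by
  unfold cosT
  refine continuous_of_dominated (bound := fun ξ => |F ξ|) ?_ ?_ hF.abs ?_
  · intro x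
    exact (cosT_int F hF x).aestronglyMeasurable
  · intro x
    refine ae_of_all _ fun ξ => ?_
    rw [norm_mul, Real.norm_eq_abs, Real.norm_eq_abs]
    exact mul_le_of_le_one_right (abs_nonneg _) (Real.abs_cos_le_one _)
  · exact ae_of_all _ fun ξ => by fun_prop

theorem box_bdd (F : EV d → ℝ) (x : EV d) : |cosT F x| ≤ ∫ ξ, |F ξ| ∨ ¬ Integrable F := by
  by_cases hF : Integrable F
  · left
    unfold cosT
    refine (abs_integral_le_integral_abs).trans ?_
    refine integral_mono (cosT_int F hF x).abs hF.abs fun ξ => ?_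
    simp only
    rw [abs_mul]
    exact mul_le_of_le_one_right (abs_nonneg _) (Real.abs_cos_le_one _)
  · right
    exact hF

theorem box_tail (f : EV d → ℝ) (hfi : Integrable f) (δ : ℝ) (hδ : 0 < δ) :
    ∃ L : ℕ, ∫ x in {z : EV d | (L : ℝ) ≤ ‖z‖}, |f x| < δ := by
  have h1 : Tendsto (fun L : ℕ => ∫ x in {z : EV d | (L : ℝ) ≤ ‖z‖}, |f x|) atTop
      (𝓝 (∫ x in ⋂ L : ℕ, {z : EV d | (L : ℝ) ≤ ‖z‖}, |f x|)) := by
    refine tendsto_setIntegral_of_antitone ?_ ?_ ⟨0, hfi.abs.integrableOn⟩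
    · intro L
      exact measurableSet_le measurable_const measurable_norm
    · intro L L' h z hz
      have : (L : ℝ) ≤ L' := by exact_mod_cast h
      exact le_trans this hz
  have h2 : (⋂ L : ℕ, {z : EV d | (L : ℝ) ≤ ‖z‖}) = ∅ := by
    ext z
    simp only [mem_iInter, mem_setOf_eq, mem_empty_iff_false, iff_false, not_forall, not_le]
    exact exists_nat_gt ‖z‖
  rw [h2, Measure.restrict_empty, integral_zero_measure] at h1
  obtain ⟨L, hL⟩ := (h1.eventually (gt_mem_nhds hδ)).exists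
  exact ⟨L, hL⟩

/-- the potential of a point far from the boundary -/
theorem box_inner (f : EV d → ℝ) (hfi : Integrable f) (L : ℝ) (Ω : Set (EV d))
    (hΩ : MeasurableSet Ω) (q : EV d) (hq : ∀ y, y ∉ Ω → L ≤ ‖q - y‖) :
    |(∫ y in Ω, f (q - y)) - ∫ x, f x| ≤ ∫ x in {z : EV d | L ≤ ‖z‖}, |f x| := by
  have hm : MeasurableSet {z : EV d | L ≤ ‖z‖} := measurableSet_le measurable_const measurable_norm
  have h0 : ∫ x, f x = ∫ y, f (q - y) := (integral_sub_left_eq_self f volume q).symm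
  have hfq : Integrable (fun y => f (q - y)) := hfi.comp_sub_left q
  have h1 : (∫ y in Ω, f (q - y)) - ∫ y, f (q - y) = -∫ y in Ωᶜ, f (q - y) := by
    rw [← integral_add_compl hΩ hfq]
    ring
  rw [h0, h1, abs_neg]
  refine (abs_integral_le_integral_abs).trans ?_
  rw [← integral_indicator hΩ.compl, ← integral_indicator hm]
  have h2 : ∫ x, indicator {z : EV d | L ≤ ‖z‖} (fun x => |f x|) x =
      ∫ y, indicator {z : EV d | L ≤ ‖z‖} (fun x => |f x|) (q - y) :=
    (integral_sub_left_eq_self _ volume q).symm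
  rw [h2]
  refine integral_mono (hfq.abs.indicator hΩ.compl) ((hfi.abs.indicator hm).comp_sub_left q) ?_
  intro y
  simp only [indicator]
  by_cases hy : y ∈ Ω
  · rw [if_neg (by simpa using hy)]
    split_ifs
    · exact abs_nonneg _
    · exact le_rfl
  · have h3 : q - y ∈ {z : EV d | L ≤ ‖z‖} := hq y hy
    rw [if_pos (by simpa using hy), if_pos h3]

theorem box_norm (q : EV d) (l : Fin d) : |q l| ≤ ‖q‖ := by
  have h1 : ‖q‖ ^ 2 = ∑ i, (q i) ^ 2 := by
    rw [EuclideanSpace.norm_sq_eq]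
    simp
  have h2 : (q l) ^ 2 ≤ ‖q‖ ^ 2 := by
    rw [h1]
    exact Finset.single_le_sum (f := fun i => (q i) ^ 2) (fun i _ => sq_nonneg _)
      (Finset.mem_univ l)
  exact abs_le_of_sq_le_sq h2 (norm_nonneg _)

/-- a point of the inner cube is far from the complement of the outer cube -/
theorem box_far (M L : ℝ) (q y : EV d) (hq : ∀ l, 0 ≤ q l ∧ q l < M)
    (hy : y ∉ cub (fun _ : Fin d => -L) (M + 2 * L)) : L ≤ ‖q - y‖ := by
  simp only [cub, mem_setOf_eq, not_forall, not_and, not_lt] at hy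
  obtain ⟨l, hl⟩ := hy
  have h1 := box_norm (q - y) l
  rw [PiLp.sub_apply] at h1
  have h2 := hq l
  by_cases h3 : -L ≤ y l
  · have h4 := hl h3
    have h5 := neg_abs_le (q l - y l)
    linarith [h2.2]
  · have h5 := le_abs_self (q l - y l)
    linarith [h2.1, not_le.1 h3]

theorem box_double (F f : EV d → ℝ) (hF : Integrable F)
    (hf : ∀ x, f x = cosT F x) (hfi : Integrable f) (M L : ℝ) (hM : 0 < M) (hL : 0 ≤ L) (δ : ℝ)
    (hδ : ∫ x in {z : EV d | L ≤ ‖z‖}, |f x| ≤ δ) :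
    ∫ w : EV d × EV d, f (w.1 - w.2)
      ∂((volume.restrict (cub (fun _ : Fin d => -L) (M + 2 * L))).prod
        (volume.restrict (cub (fun _ : Fin d => -L) (M + 2 * L)))) ≤
      M ^ d * ((∫ x, f x) + δ) + ((M + 2 * L) ^ d - M ^ d) * ∫ x, |f x| := by
  set Ω : Set (EV d) := cub (fun _ : Fin d => -L) (M + 2 * L) with hΩ
  set Ω0 : Set (EV d) := cub (fun _ : Fin d => 0) M with hΩ0
  have hΩm : MeasurableSet Ω := cub_meas _ _
  have hΩ0m : MeasurableSet Ω0 := cub_meas _ _
  have hv : volume.real Ω = (M + 2 * L) ^ d := cub_vol _ _ (by linarith)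
  have hv0 : volume.real Ω0 = M ^ d := cub_vol _ _ hM
  have hsub : Ω0 ⊆ Ω := by
    intro y hy l
    have := hy l
    constructor <;> linarith [this.1, this.2]
  have hfin : volume Ω ≠ ⊤ := by
    intro h
    rw [measureReal_def, h, ENNReal.toReal_top] at hv
    have : (0 : ℝ) < (M + 2 * L) ^ d := by positivity
    linarith
  haveI : IsFiniteMeasure (volume.restrict Ω) := ⟨by
    rw [Measure.restrict_apply_univ]
    exact lt_top_iff_ne_top.2 hfin⟩
  have hfc : Continuous f := by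
    have : f = cosT F := funext hf
    rw [this]
    exact box_cont F hF
  have hint : Integrable (fun w : EV d × EV d => f (w.1 - w.2))
      ((volume.restrict Ω).prod (volume.restrict Ω)) := by
    refine (integrable_const (∫ ξ, |F ξ|)).mono' (by
      exact (hfc.comp (by fun_prop)).aestronglyMeasurable) ?_
    refine ae_of_all _ fun w => ?_
    rw [Real.norm_eq_abs, hf]
    rcases box_bdd F (w.1 - w.2) with h | h
    · exact h
    · exact absurd hF h
  rw [integral_prod _ hint]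
  set I1 := ∫ x, |f x| with hI1
  -- pointwise bound
  have hb1 : ∀ y ∈ Ω0, ∫ z in Ω, f (y - z) ≤ (∫ x, f x) + δ := by
    intro y hy
    have h1 := box_inner f hfi L Ω hΩm y (fun z hz => box_far M L y z (fun l => by
      have := hy l
      exact ⟨this.1, by linarith [this.2]⟩) hz)
    have h2 := le_abs_self ((∫ z in Ω, f (y - z)) - ∫ x, f x)
    linarith
  have hb2 : ∀ y, ∫ z in Ω, f (y - z) ≤ I1 := by
    intro y
    have h1 : ∫ z in Ω, f (y - z) ≤ ∫ z in Ω, |f (y - z)| :=
      integral_mono (hfi.comp_sub_left y).integrableOn (hfi.comp_sub_left y).abs.integrableOn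
        fun z => le_abs_self _
    have h2 : ∫ z in Ω, |f (y - z)| ≤ ∫ z, |f (y - z)| :=
      setIntegral_le_integral (hfi.comp_sub_left y).abs (ae_of_all _ fun z => abs_nonneg _)
    have h3 : ∫ z, |f (y - z)| = I1 := integral_sub_left_eq_self (fun x => |f x|) volume y
    linarith
  have hint2 : IntegrableOn (fun y => ∫ z in Ω, f (y - z)) Ω := hint.integral_prod_left
  have hsplit : Ω = Ω0 ∪ (Ω \ Ω0) := (union_diff_cancel hsub).symm
  have hdis : Disjoint Ω0 (Ω \ Ω0) := disjoint_sdiff_right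
  have hS : ∫ y in Ω, (∫ z in Ω, f (y - z)) = (∫ y in Ω0, (∫ z in Ω, f (y - z))) +
      ∫ y in Ω \ Ω0, (∫ z in Ω, f (y - z)) := by
    rw [← setIntegral_union hdis (hΩm.diff hΩ0m) (hint2.mono_set hsub)
      (hint2.mono_set diff_subset), union_diff_cancel hsub]
  have hfin0 : volume Ω0 ≠ ⊤ := ne_top_of_le_ne_top hfin (measure_mono hsub)
  have hfin1 : volume (Ω \ Ω0) ≠ ⊤ := ne_top_of_le_ne_top hfin (measure_mono diff_subset)
  have hv1 : volume.real (Ω \ Ω0) = (M + 2 * L) ^ d - M ^ d := by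
    rw [measureReal_sdiff hsub hΩ0m hfin, hv, hv0]
  have hA : ∫ y in Ω0, (∫ z in Ω, f (y - z)) ≤ M ^ d * ((∫ x, f x) + δ) := by
    have h1 : ∫ y in Ω0, (∫ z in Ω, f (y - z)) ≤ ∫ y in Ω0, ((∫ x, f x) + δ) :=
      setIntegral_mono_on (hint2.mono_set hsub)
        (integrableOn_const hfin0) hΩ0m hb1
    rw [setIntegral_const, hv0, smul_eq_mul] at h1
    exact h1
  have hB : ∫ y in Ω \ Ω0, (∫ z in Ω, f (y - z)) ≤ ((M + 2 * L) ^ d - M ^ d) * I1 := by
    have h1 : ∫ y in Ω \ Ω0, (∫ z in Ω, f (y - z)) ≤ ∫ y in Ω \ Ω0, I1 :=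
      setIntegral_mono_on (hint2.mono_set diff_subset)
        (integrableOn_const hfin1) (hΩm.diff hΩ0m) fun y _ => hb2 y
    rw [setIntegral_const, hv1, smul_eq_mul] at h1
    exact h1
  linarith [hS, hA, hB]

theorem box (F f : EV d → ℝ) (hF : Integrable F) (hF0 : ∀ ξ, 0 ≤ F ξ)
    (hf : ∀ x, f x = cosT F x) (hfi : Integrable f) (δ : ℝ) (hδ : 0 < δ) :
    ∃ M : ℕ, 0 < M ∧ ∀ (n K : ℕ) (κ : Fin n → Fin K) (p : Fin n → EV d),
      (∀ i l, 0 ≤ p i l ∧ p i l < M) →
      2 * n * (∫ x, f x) - K * (M : ℝ) ^ d * (∫ x, f x) - δ * (n + K * (M : ℝ) ^ d) ≤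
        ∑ i, ∑ j, if κ i = κ j then f (p i - p j) else 0 := by
  obtain ⟨L, hL⟩ := box_tail f hfi (δ / 2) (by positivity)
  set I1 := ∫ x, |f x| with hI1
  have hI1n : 0 ≤ I1 := integral_nonneg fun x => abs_nonneg _
  -- choice of M
  have hlim : Tendsto (fun M : ℕ => ((1 + 2 * (L : ℝ) / M) ^ d - 1) * I1) atTop
      (𝓝 (((1 + 0) ^ d - 1) * I1)) := by
    refine Tendsto.mul_const _ (Tendsto.sub_const (Tendsto.pow (Tendsto.const_add _ ?_) _) _)
    exact tendsto_const_nhds.div_atTop tendsto_natCast_atTop_atTop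
  have hlim' : ((1 + (0 : ℝ)) ^ d - 1) * I1 < δ / 2 := by
    rw [add_zero, one_pow, sub_self, zero_mul]
    positivity
  obtain ⟨M, hM1, hM2⟩ := ((hlim.eventually (gt_mem_nhds hlim')).and
    (eventually_gt_atTop 0)).exists
  have hM0 : (0 : ℝ) < M := by exact_mod_cast hM2
  have hMd : ((M + 2 * L : ℝ) ^ d - (M : ℝ) ^ d) * I1 ≤ (M : ℝ) ^ d * (δ / 2) := by
    have h1 : (M + 2 * L : ℝ) = M * (1 + 2 * L / M) := by field_simp
    rw [h1, mul_pow]
    have h2 : 0 < (M : ℝ) ^ d := by positivity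
    calc ((M : ℝ) ^ d * (1 + 2 * L / M) ^ d - (M : ℝ) ^ d) * I1 =
        (M : ℝ) ^ d * (((1 + 2 * (L : ℝ) / M) ^ d - 1) * I1) := by ring
      _ ≤ _ := mul_le_mul_of_nonneg_left hM1.le h2.le
  refine ⟨M, hM2, ?_⟩
  intro n K κ p hp
  set Ω : Set (EV d) := cub (fun _ : Fin d => -(L : ℝ)) (M + 2 * L) with hΩ
  have hΩm : MeasurableSet Ω := cub_meas _ _
  have hv : volume.real Ω = (M + 2 * L : ℝ) ^ d := cub_vol _ _ (by positivity)
  have hfin : volume Ω ≠ ⊤ := by
    intro h
    rw [measureReal_def, h, ENNReal.toReal_top] at hv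
    have : (0 : ℝ) < (M + 2 * L : ℝ) ^ d := by positivity
    linarith
  haveI : IsFiniteMeasure (volume.restrict Ω) := ⟨by
    rw [Measure.restrict_apply_univ]
    exact lt_top_iff_ne_top.2 hfin⟩
  set c0 := ∫ x, f x with hc0
  have hdbl := box_double F f hF hf hfi (M : ℝ) L hM0 (by positivity) (δ / 2) hL.le
  rw [← hΩ] at hdbl
  set W := ∫ w : EV d × EV d, f (w.1 - w.2) ∂((volume.restrict Ω).prod (volume.restrict Ω))
    with hW
  have hW2 : W ≤ (M : ℝ) ^ d * c0 + (M : ℝ) ^ d * δ := by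
    linarith [hdbl, hMd]
  -- one class
  have hcls : ∀ k : Fin K, 2 * ((Finset.univ.filter fun i => κ i = k).card : ℝ) * (c0 - δ / 2) -
      W ≤ ∑ i ∈ Finset.univ.filter (fun i => κ i = k),
        ∑ j ∈ Finset.univ.filter (fun j => κ j = k), f (p i - p j) := by
    intro k
    set s : Finset (Fin n) := Finset.univ.filter fun i => κ i = k with hs
    have h1 : 0 ≤ (∑ i : s, ∑ j : s, f (p i - p j)) - 2 * (∑ i : s, ∫ y in Ω, f (p i - y)) + W := by
      have h0 := posdef F hF hF0 (fun i : s => p i) (volume.restrict Ω)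
      simp only [← hf] at h0
      exact h0
    have h2 : ∑ i : s, ∑ j : s, f (p i - p j) = ∑ i ∈ s, ∑ j ∈ s, f (p i - p j) := by
      rw [← Finset.sum_coe_sort s (fun i => ∑ j ∈ s, f (p i - p j))]
      refine Finset.sum_congr rfl fun i _ => ?_
      rw [← Finset.sum_coe_sort s (fun j => f (p i - p j))]
    have h3 : (s.card : ℝ) * (c0 - δ / 2) ≤ ∑ i : s, ∫ y in Ω, f (p i - y) := by
      have h6 : ∑ i : s, (c0 - δ / 2) ≤ ∑ i : s, ∫ y in Ω, f (p i - y) := by
        refine Finset.sum_le_sum fun i _ => ?_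
        have h4 := box_inner f hfi (L : ℝ) Ω hΩm (p i) (fun y hy => box_far M L (p i) y (hp i) hy)
        have h5 := neg_abs_le ((∫ y in Ω, f (p i - y)) - ∫ x, f x)
        linarith
      rw [Finset.sum_const, Finset.card_univ, Fintype.card_coe, nsmul_eq_mul] at h6
      exact h6
    rw [h2] at h1
    linarith
  have hsum := Finset.sum_le_sum fun k (_ : k ∈ (Finset.univ : Finset (Fin K))) => hcls k
  have hR : ∑ k, ∑ i ∈ Finset.univ.filter (fun i => κ i = k),
        ∑ j ∈ Finset.univ.filter (fun j => κ j = k), f (p i - p j) =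
      ∑ i, ∑ j, if κ i = κ j then f (p i - p j) else 0 := by
    have h1 : ∀ k, ∑ i ∈ Finset.univ.filter (fun i => κ i = k),
        ∑ j ∈ Finset.univ.filter (fun j => κ j = k), f (p i - p j) =
        ∑ i ∈ Finset.univ.filter (fun i => κ i = k), ∑ j, if κ i = κ j then f (p i - p j) else 0 := by
      intro k
      refine Finset.sum_congr rfl fun i hi => ?_
      rw [Finset.sum_filter]
      refine Finset.sum_congr rfl fun j _ => ?_
      rw [Finset.mem_filter] at hi
      rw [hi.2]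
      by_cases h : κ j = k
      · rw [if_pos h, if_pos h.symm]
      · rw [if_neg h, if_neg fun h' => h h'.symm]
    simp only [h1]
    exact Finset.sum_fiberwise Finset.univ κ _
  have hC : ∑ k : Fin K, ((Finset.univ.filter fun i => κ i = k).card : ℝ) = n := by
    have h1 := Finset.card_eq_sum_card_fiberwise (s := (Finset.univ : Finset (Fin n)))
      (t := (Finset.univ : Finset (Fin K))) (f := κ) (fun i _ => Finset.mem_univ _)
    rw [Finset.card_univ, Fintype.card_fin] at h1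
    exact_mod_cast h1.symm
  rw [hR, Finset.sum_sub_distrib, Finset.sum_const, Finset.card_univ, Fintype.card_fin,
    nsmul_eq_mul] at hsum
  have hC2 : ∑ k : Fin K, 2 * ((Finset.univ.filter fun i => κ i = k).card : ℝ) * (c0 - δ / 2) =
      2 * n * (c0 - δ / 2) := by
    rw [← hC, Finset.mul_sum, Finset.sum_mul]
  rw [hC2] at hsum
  have hK : (K : ℝ) * W ≤ K * ((M : ℝ) ^ d * c0 + (M : ℝ) ^ d * δ) :=
    mul_le_mul_of_nonneg_left hW2 (Nat.cast_nonneg _)
  refine le_trans ?_ hsum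
  have : 2 * (n : ℝ) * (c0 - δ / 2) - K * W ≥ 2 * n * (c0 - δ / 2) -
      K * ((M : ℝ) ^ d * c0 + (M : ℝ) ^ d * δ) := by linarith
  refine le_trans (le_of_eq ?_) this
  ring

end Pool.Agent.Helper7.LP
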