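import Mathlib

/-!
Project LP: a certified test for the nonnegativity of an integer polynomial on `[0, 1)` and on
`[0, ∞)`, by bisection and the substitution `t = w/(1+w)`.
-/

set_option autoImplicit false

namespace Pool.Agent.Helper7.LP

/-- evaluation of the polynomial with coefficient list `L` (constant term first) -/
def ev (L : List ℤ) (x : ℝ) : ℝ := L.foldr (fun c acc => (c : ℝ) + x * acc) 0

@[simp] theorem ev_nil (x : ℝ) : ev [] x = 0 := rfl

@[simp] theorem ev_cons (c : ℤ) (L : List ℤ) (x : ℝ) : ev (c :: L) x = c + x * ev L x := rfl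

/-- sum of coefficient lists -/
def addL : List ℤ → List ℤ → List ℤ
  | [], M => M
  | L, [] => L
  | a :: L, b :: M => (a + b) :: addL L M

theorem ev_addL (L M : List ℤ) (x : ℝ) : ev (addL L M) x = ev L x + ev M x := by
  induction L generalizing M with
  | nil => cases M <;> simp [addL]
  | cons a L ih =>
    cases M with
    | nil => simp [addL]
    | cons b M =>
      simp only [addL, ev_cons, ih]
      push_cast
      ring

/-- multiplication by a constant -/
def smulL (c : ℤ) : List ℤ → List ℤ
  | [] => []
  | a :: L => (c * a) :: smulL c L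

theorem ev_smulL (c : ℤ) (L : List ℤ) (x : ℝ) : ev (smulL c L) x = c * ev L x := by
  induction L with
  | nil => simp [smulL]
  | cons a L ih =>
    simp only [smulL, ev_cons, ih]
    push_cast
    ring

/-- product -/
def mulL : List ℤ → List ℤ → List ℤ
  | [], _ => []
  | a :: L, M => addL (smulL a M) (0 :: mulL L M)

theorem ev_mulL (L M : List ℤ) (x : ℝ) : ev (mulL L M) x = ev L x * ev M x := by
  induction L with
  | nil => simp [mulL]
  | cons a L ih =>
    simp only [mulL, ev_addL, ev_smulL, ev_cons, ih]
    push_cast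
    ring

/-- multiplication by `1 + x` (for both orders of the coefficients), plus `p` -/
def goL : ℤ → List ℤ → List ℤ
  | p, [] => [p]
  | p, b :: B => (p + b) :: goL b B

/-- adding to the first coefficient -/
def addHead (a : ℤ) : List ℤ → List ℤ
  | [] => [a]
  | b :: B => (a + b) :: B

theorem ev_goL (B : List ℤ) (p : ℤ) (x : ℝ) : ev (goL p B) x = p + (1 + x) * ev B x := by
  induction B generalizing p with
  | nil => simp [goL]
  | cons b B ih =>
    simp only [goL, ev_cons, ih]
    push_cast
    ring

theorem ev_addHead (a : ℤ) (B : List ℤ) (x : ℝ) : ev (addHead a B) x = a + ev B x := by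
  cases B with
  | nil => simp [addHead]
  | cons b B =>
    simp only [addHead, ev_cons]
    push_cast
    ring

/-- `P (t + 1)` -/
def shiftL : List ℤ → List ℤ
  | [] => []
  | a :: L => addHead a (goL 0 (shiftL L))

theorem ev_shiftL (L : List ℤ) (x : ℝ) : ev (shiftL L) x = ev L (x + 1) := by
  induction L with
  | nil => simp [shiftL]
  | cons a L ih =>
    simp only [shiftL, ev_addHead, ev_goL, ev_cons, ih]
    push_cast
    ring

/-- `2^len * P (t / 2)` -/
def halfL : List ℤ → List ℤ
  | [] => []
  | a :: L => (2 ^ (L.length + 1) * a) :: halfL L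

theorem ev_halfL (L : List ℤ) (x : ℝ) : ev (halfL L) x = 2 ^ L.length * ev L (x / 2) := by
  induction L with
  | nil => simp [halfL]
  | cons a L ih =>
    simp only [halfL, ev_cons, ih, List.length_cons]
    push_cast
    ring

/-- `P (c t)` -/
def scaleL (c : ℤ) : List ℤ → List ℤ
  | [] => []
  | a :: L => a :: smulL c (scaleL c L)

theorem ev_scaleL (c : ℤ) (L : List ℤ) (x : ℝ) : ev (scaleL c L) x = ev L (c * x) := by
  induction L with
  | nil => simp [scaleL]
  | cons a L ih =>
    simp only [scaleL, ev_cons, ev_smulL, ih]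
    ring

/-- evaluation, highest coefficient first -/
def evH : List ℤ → ℝ → ℝ
  | [], _ => 0
  | b :: B, x => b * x ^ B.length + evH B x

theorem goL_length (B : List ℤ) (p : ℤ) : (goL p B).length = B.length + 1 := by
  induction B generalizing p with
  | nil => simp [goL]
  | cons b B ih => simp [goL, ih]

theorem evH_goL (B : List ℤ) (p : ℤ) (x : ℝ) :
    evH (goL p B) x = p * x ^ B.length + (1 + x) * evH B x := by
  induction B generalizing p with
  | nil => simp [goL, evH]
  | cons b B ih =>
    simp only [goL, evH, ih, goL_length, List.length_cons]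
    push_cast
    ring

/-- `(1+w)^len * P (w / (1+w))`, highest coefficient first, with accumulator -/
def mobH : List ℤ → List ℤ → List ℤ
  | [], B => B
  | c :: L, B => mobH L (goL 0 (addHead c B))

theorem evH_mobH (L : List ℤ) (b : ℤ) (B : List ℤ) (x : ℝ) (hx : 0 ≤ x) :
    evH (mobH L (b :: B)) x = (1 + x) ^ L.length * (evH (b :: B) x +
      x ^ B.length * ev L (x / (1 + x))) := by
  have h0 : (1 + x) ≠ 0 := by positivity
  induction L generalizing b B with
  | nil => simp [mobH]
  | cons c L ih =>
    have h1 : goL 0 (addHead c (b :: B)) = (c + b) :: goL (c + b) B := by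
      simp [goL, addHead]
    simp only [mobH, h1, ih]
    simp only [evH, evH_goL, goL_length, ev_cons, List.length_cons]
    push_cast
    field_simp
    ring

/-- `(1+w)^len * P (w / (1+w))` -/
def mobL (L : List ℤ) : List ℤ := mobH L [0]

theorem evH_mobL (L : List ℤ) (x : ℝ) (hx : 0 ≤ x) :
    evH (mobL L) x = (1 + x) ^ L.length * ev L (x / (1 + x)) := by
  rw [mobL, evH_mobH L 0 [] x hx]
  simp [evH]

/-- all coefficients are nonnegative -/
def nnL (L : List ℤ) : Bool := L.all fun c => decide (0 ≤ c)

theorem nnL_sound (L : List ℤ) (h : nnL L = true) (x : ℝ) (hx : 0 ≤ x) : 0 ≤ ev L x := by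
  induction L with
  | nil => simp
  | cons a L ih =>
    simp only [nnL, List.all_cons, Bool.and_eq_true, decide_eq_true_eq] at h
    rw [ev_cons]
    have h1 : (0 : ℝ) ≤ a := by exact_mod_cast h.1
    have h2 := ih h.2
    positivity

theorem nnH_sound (L : List ℤ) (h : nnL L = true) (x : ℝ) (hx : 0 ≤ x) : 0 ≤ evH L x := by
  induction L with
  | nil => simp [evH]
  | cons a L ih =>
    simp only [nnL, List.all_cons, Bool.and_eq_true, decide_eq_true_eq] at h
    rw [evH]
    have h1 : (0 : ℝ) ≤ a := by exact_mod_cast h.1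
    have h2 := ih h.2
    positivity

/-- the test `K L = a² + x c² + (nonnegative coefficients)` -/
def sosOK (K : ℕ) (a c L : List ℤ) : Bool :=
  decide (0 < K) && nnL (addL (smulL K L) (smulL (-1) (addL (mulL a a) (0 :: mulL c c))))

theorem sos_sound (K : ℕ) (a c L : List ℤ) (h : sosOK K a c L = true) (x : ℝ) (hx : 0 ≤ x) :
    0 ≤ ev L x := by
  rw [sosOK, Bool.and_eq_true, decide_eq_true_eq] at h
  have hK : (0 : ℝ) < K := by exact_mod_cast h.1
  have h1 := nnL_sound _ h.2 x hx
  rw [ev_addL, ev_smulL, ev_smulL, ev_addL, ev_cons, ev_mulL, ev_mulL] at h1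
  push_cast at h1
  have h2 : 0 ≤ x * (ev c x * ev c x) := mul_nonneg hx (mul_self_nonneg _)
  have h3 := mul_self_nonneg (ev a x)
  have h4 : 0 ≤ (K : ℝ) * ev L x := by linarith
  exact (mul_nonneg_iff_of_pos_left hK).1 h4

/-- the test on `[0, 1)` -/
def chk : ℕ → List ℤ → Bool
  | 0, L => nnL (mobL L)
  | n + 1, L => nnL (mobL L) || (chk n (halfL L) && chk n (shiftL (halfL L)) )

theorem mob_sound (L : List ℤ) (h : nnL (mobL L) = true) (t : ℝ) (h0 : 0 ≤ t) (h1 : t < 1) :
    0 ≤ ev L t := by
  have hw : 0 ≤ t / (1 - t) := div_nonneg h0 (by linarith)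
  have h2 := nnH_sound _ h _ hw
  rw [evH_mobL _ _ hw] at h2
  have h3 : 1 + t / (1 - t) = 1 / (1 - t) := by
    have : 1 - t ≠ 0 := by linarith
    field_simp
    ring
  have h4 : t / (1 - t) / (1 / (1 - t)) = t := by
    have : 1 - t ≠ 0 := by linarith
    field_simp
  rw [h3, h4] at h2
  have h5 : 0 < (1 / (1 - t)) ^ L.length := by
    have : 0 < 1 - t := by linarith
    positivity
  exact (mul_nonneg_iff_of_pos_left h5).1 h2

theorem chk_sound (n : ℕ) (L : List ℤ) (h : chk n L = true) (t : ℝ) (h0 : 0 ≤ t) (h1 : t < 1) :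
    0 ≤ ev L t := by
  induction n generalizing L t with
  | zero => exact mob_sound L h t h0 h1
  | succ n ih =>
    rw [chk, Bool.or_eq_true, Bool.and_eq_true] at h
    rcases h with h | ⟨ha, hb⟩
    · exact mob_sound L h t h0 h1
    · rcases lt_or_ge t (1 / 2) with h2 | h2
      · have h3 := ih _ ha (2 * t) (by linarith) (by linarith)
        rw [ev_halfL] at h3
        have h4 : 2 * t / 2 = t := by ring
        rw [h4] at h3
        exact (mul_nonneg_iff_of_pos_left (by positivity)).1 h3
      · have h3 := ih _ hb (2 * t - 1) (by linarith) (by linarith)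
        rw [ev_shiftL, ev_halfL] at h3
        have h4 : (2 * t - 1 + 1) / 2 = t := by ring
        rw [h4] at h3
        exact (mul_nonneg_iff_of_pos_left (by positivity)).1 h3

/-- the test on `[0, ∞)`: bisection of `[0, B)`, nonnegative coefficients after shift by `B` -/
def chkAll (n B : ℕ) (L : List ℤ) : Bool :=
  chk n (scaleL B L) && nnL (shiftL (scaleL B L))

theorem chkAll_sound (n B : ℕ) (hB : 0 < B) (L : List ℤ) (h : chkAll n B L = true) (x : ℝ)
    (hx : 0 ≤ x) : 0 ≤ ev L x := by
  rw [chkAll, Bool.and_eq_true] at h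
  have hB' : (0 : ℝ) < B := by exact_mod_cast hB
  rcases lt_or_ge x B with h1 | h1
  · have h2 := chk_sound n _ h.1 (x / B) (by positivity) (by rw [div_lt_one hB']; exact h1)
    rw [ev_scaleL] at h2
    have h3 : ((B : ℤ) : ℝ) * (x / B) = x := by
      push_cast
      field_simp
    rwa [h3] at h2
  · have h2 := nnL_sound _ h.2 (x / B - 1) (by
      rw [sub_nonneg, le_div_iff₀ hB']
      linarith)
    rw [ev_shiftL, ev_scaleL] at h2
    have h3 : ((B : ℤ) : ℝ) * (x / B - 1 + 1) = x := by
      push_cast
      field_simp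
      ring
    rwa [h3] at h2

end Pool.Agent.Helper7.LP
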