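import Pool.Agent.Helper7.LP.Defs
import Pool.Agent.Helper7.LP.Chk

/-!
Project LP: lower bounds `(N/D)(x) e^(-x) ≤ E₁(x)` by the convergents of the continued fraction.
-/

set_option autoImplicit false

open MeasureTheory Set Filter Topology

namespace Pool.Agent.Helper7.LP

/-- derivative of a coefficient list -/
def derivL : List ℤ → List ℤ
  | [] => []
  | _ :: L => addL L (0 :: derivL L)

theorem ev_hasDerivAt (L : List ℤ) (x : ℝ) : HasDerivAt (ev L) (ev (derivL L) x) x := by
  induction L with
  | nil => exact hasDerivAt_const x 0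
  | cons a L ih =>
    have h1 : ev (a :: L) = fun x => (a : ℝ) + x * ev L x := by
      funext y
      rfl
    rw [h1]
    have h2 := ((hasDerivAt_id x).mul ih).const_add (a : ℝ)
    refine h2.congr_deriv ?_
    simp only [derivL, ev_addL, ev_cons, id]
    push_cast
    ring

/-- `N D - N' D + N D'` -/
def wL (N D : List ℤ) : List ℤ :=
  addL (mulL N D) (addL (smulL (-1) (mulL (derivL N) D)) (mulL N (derivL D)))

/-- the conditions on the convergent `N / D` -/
def okE (N D : List ℤ) : Bool :=
  nnL N && nnL (addL D [-1]) && nnL (addL (smulL 5 D) (smulL (-1) N)) && nnL (wL N D) &&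
    nnL (addL (mulL D D) (smulL (-1) (0 :: wL N D)))

theorem E1_ge (N D : List ℤ) (h : okE N D = true) (a r : ℝ) (ha : 0 < a) (hr : 0 < r) :
    ev N (a * r ^ 2) / ev D (a * r ^ 2) * Real.exp (-(a * r ^ 2)) ≤ VV a r := by
  simp only [okE, Bool.and_eq_true] at h
  obtain ⟨⟨⟨⟨h1, h2⟩, h3⟩, h4⟩, h5⟩ := h
  set c : ℝ := r ^ 2 with hc
  have hc0 : 0 < c := by positivity
  have hN : ∀ x : ℝ, 0 ≤ x → 0 ≤ ev N x := fun x hx => nnL_sound _ h1 x hx
  have hD : ∀ x : ℝ, 0 ≤ x → 1 ≤ ev D x := by
    intro x hx
    have := nnL_sound _ h2 x hx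
    rw [ev_addL] at this
    simp only [ev_cons, ev_nil, mul_zero, add_zero] at this
    push_cast at this
    linarith
  have hND : ∀ x : ℝ, 0 ≤ x → ev N x ≤ 5 * ev D x := by
    intro x hx
    have := nnL_sound _ h3 x hx
    rw [ev_addL, ev_smulL, ev_smulL] at this
    push_cast at this
    linarith
  have hW : ∀ x : ℝ, ev (wL N D) x = ev N x * ev D x - ev (derivL N) x * ev D x +
      ev N x * ev (derivL D) x := by
    intro x
    simp only [wL, ev_addL, ev_mulL, ev_smulL]
    push_cast
    ring
  have hW0 : ∀ x : ℝ, 0 ≤ x → 0 ≤ ev (wL N D) x := fun x hx => nnL_sound _ h4 x hx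
  have hW1 : ∀ x : ℝ, 0 ≤ x → x * ev (wL N D) x ≤ ev D x * ev D x := by
    intro x hx
    have := nnL_sound _ h5 x hx
    rw [ev_addL, ev_smulL, ev_mulL, ev_cons] at this
    push_cast at this
    linarith
  set g : ℝ → ℝ := fun t => ev N (t * c) / ev D (t * c) * Real.exp (-(t * c)) with hg
  set g' : ℝ → ℝ := fun t => -(c * (ev (wL N D) (t * c) / (ev D (t * c)) ^ 2) *
    Real.exp (-(t * c))) with hg'
  have hder : ∀ t ∈ Ici a, HasDerivAt g (g' t) t := by
    intro t ht
    have ht0 : 0 < t := lt_of_lt_of_le ha ht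
    have hD0 : ev D (t * c) ≠ 0 := by
      have := hD (t * c) (by positivity)
      linarith
    have d0 : HasDerivAt (fun t : ℝ => t * c) c t := by
      simpa using (hasDerivAt_id t).mul_const c
    have d1 : HasDerivAt (fun t : ℝ => ev N (t * c)) (ev (derivL N) (t * c) * c) t :=
      HasDerivAt.comp (h₂ := ev N) t (ev_hasDerivAt N (t * c)) d0
    have d2 : HasDerivAt (fun t : ℝ => ev D (t * c)) (ev (derivL D) (t * c) * c) t :=
      HasDerivAt.comp (h₂ := ev D) t (ev_hasDerivAt D (t * c)) d0
    have d3 : HasDerivAt (fun t : ℝ => Real.exp (-(t * c))) (Real.exp (-(t * c)) * -c) t :=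
      d0.neg.exp
    have d4 := (d1.div d2 hD0).mul d3
    refine d4.congr_deriv ?_
    simp only [hg', hW, Pi.div_apply]
    field_simp
    ring
  have hneg : ∀ t ∈ Ioi a, g' t ≤ 0 := by
    intro t ht
    have ht0 : 0 < t := ha.trans ht
    have h6 := hW0 (t * c) (by positivity)
    simp only [hg']
    have : 0 ≤ c * (ev (wL N D) (t * c) / (ev D (t * c)) ^ 2) * Real.exp (-(t * c)) := by
      positivity
    linarith
  have hlim : Tendsto g atTop (𝓝 0) := by
    have l1 : Tendsto (fun t : ℝ => 5 * Real.exp (-(t * c))) atTop (𝓝 (5 * 0)) := by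
      refine Tendsto.const_mul _ ?_
      refine Real.tendsto_exp_neg_atTop_nhds_zero.comp ?_
      exact tendsto_id.atTop_mul_const hc0
    rw [mul_zero] at l1
    refine squeeze_zero' ?_ ?_ l1
    · filter_upwards [eventually_ge_atTop 0] with t ht
      have h6 := hN (t * c) (by positivity)
      have h7 := hD (t * c) (by positivity)
      simp only [hg]
      positivity
    · filter_upwards [eventually_ge_atTop 0] with t ht
      have h6 := hND (t * c) (by positivity)
      have h7 := hD (t * c) (by positivity)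
      simp only [hg]
      gcongr
      rw [div_le_iff₀ (by linarith)]
      exact h6
  have hint := integrableOn_Ioi_deriv_of_nonpos' hder hneg hlim
  have hval := integral_Ioi_of_hasDerivAt_of_nonpos' hder hneg hlim
  have hle : ∫ t in Ioi a, -g' t ≤ VV a r := by
    unfold VV
    have hVint : IntegrableOn (fun t => Real.exp (-(t * r ^ 2)) / t) (Ioi a) := by
      have h1 : IntegrableOn (fun t => Real.exp (-(r ^ 2) * t) * (1 / a)) (Ioi a) :=
        (exp_neg_integrableOn_Ioi a (by positivity)).mul_const _
      refine h1.mono' ?_ ?_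
      · exact (by fun_prop :
          Measurable fun t : ℝ => Real.exp (-(t * r ^ 2)) / t).aestronglyMeasurable
      · refine (ae_restrict_iff' measurableSet_Ioi).2 (ae_of_all _ fun t ht => ?_)
        have ht' : a < t := ht
        have ht0 : 0 < t := ha.trans ht'
        rw [Real.norm_eq_abs, abs_of_pos (by positivity), div_eq_mul_one_div]
        have h2 : -(t * r ^ 2) = -(r ^ 2) * t := by ring
        rw [h2]
        gcongr
    refine setIntegral_mono_on hint.neg hVint measurableSet_Ioi ?_
    intro t ht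
    have ht0 : 0 < t := ha.trans ht
    have h6 := hW1 (t * c) (by positivity)
    have h7 := hD (t * c) (by positivity)
    simp only [hg', neg_neg]
    rw [div_eq_mul_one_div (Real.exp (-(t * r ^ 2))), mul_comm (Real.exp (-(t * r ^ 2)))]
    rw [← hc]
    refine mul_le_mul_of_nonneg_right ?_ (Real.exp_pos _).le
    rw [mul_div_assoc', div_le_div_iff₀ (by positivity) ht0]
    calc c * ev (wL N D) (t * c) * t = t * c * ev (wL N D) (t * c) := by ring
      _ ≤ ev D (t * c) * ev D (t * c) := h6
      _ = 1 * ev D (t * c) ^ 2 := by ring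
  rw [integral_neg, hval] at hle
  simp only [hg, zero_sub, neg_neg] at hle
  exact hle

end Pool.Agent.Helper7.LP
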