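import Pool.Agent.Helper7.LP.PosDef
import Pool.Agent.Helper78.LE.LB3

/-!
Project LP: cosine transform of polynomials times the Gaussian.  The monomial `y^j`,
`y = |ξ|²/(4a)`, on the transform side corresponds to `lagP (d/2) j (s)`, `s = a |x|²`.
-/

set_option autoImplicit false

open MeasureTheory Set Filter Topology

namespace Pool.Agent.Helper7.LP

open Pool.Agent.Helper78.LE

/-- `j! L_j^(α-1)(s)` -/
noncomputable def lagP (α : ℝ) : ℕ → Polynomial ℝ
  | 0 => 1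
  | j + 1 => (Polynomial.C (α + j) - Polynomial.X) * lagP α j +
      Polynomial.X * Polynomial.derivative (lagP α j)

variable {d : ℕ}

theorem mom_int (c : ℝ) (hc : 0 < c) (j : ℕ) :
    Integrable (fun ξ : EV d => (‖ξ‖ ^ 2) ^ j * Real.exp (-(c * ‖ξ‖ ^ 2))) := by
  have h1 : Integrable (fun ξ : EV d => ((j.factorial : ℝ) * (2 / c) ^ j) *
      Real.exp (-(c / 2) * ‖ξ‖ ^ 2)) := (LB3.gauss_integrable (by positivity)).const_mul _
  refine h1.mono' (by
    exact (by fun_prop : Continuous fun ξ : EV d =>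
      (‖ξ‖ ^ 2) ^ j * Real.exp (-(c * ‖ξ‖ ^ 2))).aestronglyMeasurable) ?_
  refine ae_of_all _ fun ξ => ?_
  rw [Real.norm_eq_abs, abs_of_nonneg (by positivity)]
  have h2 := LB3.pow_le_fact j (x := c / 2 * ‖ξ‖ ^ 2) (by positivity)
  have h3 : (‖ξ‖ ^ 2) ^ j = (2 / c) ^ j * (c / 2 * ‖ξ‖ ^ 2) ^ j := by
    rw [← mul_pow]
    congr 1
    field_simp
  have h4 : Real.exp (-(c * ‖ξ‖ ^ 2)) = Real.exp (-(c / 2 * ‖ξ‖ ^ 2)) *
      Real.exp (-(c / 2) * ‖ξ‖ ^ 2) := by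
    rw [← Real.exp_add]
    congr 1
    ring
  rw [h3, h4]
  have h5 := (Real.exp_pos (-(c / 2) * ‖ξ‖ ^ 2)).le
  have h6 : 0 ≤ (2 / c) ^ j := by positivity
  calc (2 / c) ^ j * (c / 2 * ‖ξ‖ ^ 2) ^ j * (Real.exp (-(c / 2 * ‖ξ‖ ^ 2)) *
        Real.exp (-(c / 2) * ‖ξ‖ ^ 2)) =
      (2 / c) ^ j * ((c / 2 * ‖ξ‖ ^ 2) ^ j * Real.exp (-(c / 2 * ‖ξ‖ ^ 2))) *
        Real.exp (-(c / 2) * ‖ξ‖ ^ 2) := by ring
    _ ≤ (2 / c) ^ j * (j.factorial : ℝ) * Real.exp (-(c / 2) * ‖ξ‖ ^ 2) := by gcongr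
    _ = _ := by ring

theorem base (c : ℝ) (hc : 0 < c) (x : EV d) :
    ∫ ξ : EV d, Real.exp (-(c * ‖ξ‖ ^ 2)) * Real.cos (inner ℝ ξ x) =
      (Real.pi / c) ^ ((d : ℝ) / 2) * Real.exp (-(‖x‖ ^ 2 / (4 * c))) := by
  have hc' : 0 < ((c : ℝ) : ℂ).re := by simpa using hc
  have h1 := GaussianFourier.integral_cexp_neg_mul_sq_norm_add hc' Complex.I x
  have h2 := integral_re (GaussianFourier.integrable_cexp_neg_mul_sq_norm_add hc' Complex.I x)
  rw [h1] at h2
  have h3 : ∀ ξ : EV d, RCLike.re (Complex.exp (-(c : ℂ) * (‖ξ‖ : ℂ) ^ 2 + Complex.I *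
      ((inner ℝ x ξ : ℝ) : ℂ))) = Real.exp (-(c * ‖ξ‖ ^ 2)) * Real.cos (inner ℝ ξ x) := by
    intro ξ
    have e1 : (-(c : ℂ) * (‖ξ‖ : ℂ) ^ 2 + Complex.I * ((inner ℝ x ξ : ℝ) : ℂ)) =
        ((-(c * ‖ξ‖ ^ 2) : ℝ) : ℂ) + ((inner ℝ x ξ : ℝ) : ℂ) * Complex.I := by
      push_cast
      ring
    rw [e1]
    change (Complex.exp _).re = _
    rw [Complex.exp_re]
    simp only [Complex.add_re, Complex.ofReal_re, Complex.mul_re, Complex.I_re, mul_zero,
      Complex.ofReal_im, Complex.I_im, mul_one, sub_self, add_zero, Complex.add_im, Complex.mul_im,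
      zero_add]
    rw [real_inner_comm]
  rw [← integral_congr_ae (ae_of_all _ h3)]
  refine h2.trans ?_
  have e2 : Complex.exp (Complex.I ^ 2 * (‖x‖ : ℂ) ^ 2 / (4 * (c : ℂ))) =
      ((Real.exp (-(‖x‖ ^ 2 / (4 * c))) : ℝ) : ℂ) := by
    rw [Complex.ofReal_exp, Complex.I_sq]
    congr 1
    push_cast
    ring
  have e3 : ((Real.pi : ℂ) / (c : ℂ)) ^ ((Module.finrank ℝ (EV d) : ℂ) / 2) =
      (((Real.pi / c) ^ ((d : ℝ) / 2) : ℝ) : ℂ) := by
    rw [Complex.ofReal_cpow (by positivity)]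
    simp
  rw [e2, e3, ← Complex.ofReal_mul]
  exact Complex.ofReal_re _

theorem cos_int (c : ℝ) (hc : 0 < c) (j : ℕ) (x : EV d) :
    Integrable (fun ξ : EV d => (‖ξ‖ ^ 2) ^ j * Real.exp (-(c * ‖ξ‖ ^ 2)) *
      Real.cos (inner ℝ ξ x)) := cosT_int _ (mom_int c hc j) x

/-- the cosine transform of the monomials times the Gaussian -/
theorem four (a : ℝ) (ha : 0 < a) (x : EV d) (j : ℕ) : ∀ b : ℝ, 0 < b →
    ∫ ξ : EV d, (‖ξ‖ ^ 2 / (4 * a)) ^ j * Real.exp (-(b * (‖ξ‖ ^ 2 / (4 * a)))) *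
      Real.cos (inner ℝ ξ x) =
      (4 * Real.pi * a) ^ ((d : ℝ) / 2) * (b ^ (-((d : ℝ) / 2) - j) *
        (lagP ((d : ℝ) / 2) j).eval (a * ‖x‖ ^ 2 / b) * Real.exp (-(a * ‖x‖ ^ 2 / b))) := by
  set α : ℝ := (d : ℝ) / 2 with hα
  set s : ℝ := a * ‖x‖ ^ 2 with hs
  set K : ℝ := (4 * Real.pi * a) ^ α with hK
  have hint : ∀ (j : ℕ) (b : ℝ), 0 < b → Integrable (fun ξ : EV d =>
      (‖ξ‖ ^ 2 / (4 * a)) ^ j * Real.exp (-(b * (‖ξ‖ ^ 2 / (4 * a))))) := by
    intro j b hb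
    have h1 := (mom_int (d := d) (b / (4 * a)) (by positivity) j).const_mul ((1 / (4 * a)) ^ j)
    refine h1.congr (ae_of_all _ fun ξ => ?_)
    simp only
    rw [← mul_assoc, ← mul_pow]
    congr 2
    · ring
    · ring
  induction j with
  | zero =>
    intro b hb
    have h1 := base (d := d) (b / (4 * a)) (by positivity) x
    rw [← hα] at h1
    simp only [pow_zero, one_mul]
    have h2 : ∀ ξ : EV d, Real.exp (-(b * (‖ξ‖ ^ 2 / (4 * a)))) * Real.cos (inner ℝ ξ x) =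
        Real.exp (-(b / (4 * a) * ‖ξ‖ ^ 2)) * Real.cos (inner ℝ ξ x) := by
      intro ξ
      congr 2
      ring
    rw [integral_congr_ae (ae_of_all _ h2), h1, hK]
    simp only [lagP, Polynomial.eval_one, Nat.cast_zero, sub_zero, mul_one]
    have h3 : Real.pi / (b / (4 * a)) = 4 * Real.pi * a / b := by
      field_simp
    rw [h3, Real.div_rpow (by positivity) hb.le, Real.rpow_neg hb.le]
    have h4 : ‖x‖ ^ 2 / (4 * (b / (4 * a))) = s / b := by
      rw [hs]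
      field_simp
    rw [h4]
    have h5 : b ^ α ≠ 0 := (Real.rpow_pos_of_pos hb _).ne'
    field_simp
  | succ j ih =>
    intro b hb
    have hnb : Ioi (b / 2) ∈ 𝓝 b := Ioi_mem_nhds (by linarith)
    have hder := (hasDerivAt_integral_of_dominated_loc_of_deriv_le (μ := (volume : Measure (EV d)))
      (F := fun (b : ℝ) (ξ : EV d) => (‖ξ‖ ^ 2 / (4 * a)) ^ j *
        Real.exp (-(b * (‖ξ‖ ^ 2 / (4 * a)))) * Real.cos (inner ℝ ξ x))
      (F' := fun (b : ℝ) (ξ : EV d) => -((‖ξ‖ ^ 2 / (4 * a)) ^ (j + 1) *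
        Real.exp (-(b * (‖ξ‖ ^ 2 / (4 * a)))) * Real.cos (inner ℝ ξ x)))
      (bound := fun ξ : EV d => (‖ξ‖ ^ 2 / (4 * a)) ^ (j + 1) *
        Real.exp (-(b / 2 * (‖ξ‖ ^ 2 / (4 * a)))))
      (x₀ := b) hnb
      (Eventually.of_forall fun b' => by
        exact (by fun_prop : Continuous fun ξ : EV d => (‖ξ‖ ^ 2 / (4 * a)) ^ j *
          Real.exp (-(b' * (‖ξ‖ ^ 2 / (4 * a)))) * Real.cos (inner ℝ ξ x)).aestronglyMeasurable)
      (cosT_int _ (hint j b hb) x)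
      (by
        exact (by fun_prop : Continuous fun ξ : EV d => -((‖ξ‖ ^ 2 / (4 * a)) ^ (j + 1) *
          Real.exp (-(b * (‖ξ‖ ^ 2 / (4 * a)))) * Real.cos (inner ℝ ξ x))).aestronglyMeasurable)
      (ae_of_all _ fun ξ b' hb' => by
        have hb1 : b / 2 ≤ b' := (mem_Ioi.1 hb').le
        rw [norm_neg, norm_mul, Real.norm_eq_abs, Real.norm_eq_abs,
          abs_of_nonneg (by positivity)]
        refine (mul_le_of_le_one_right (by positivity) (Real.abs_cos_le_one _)).trans ?_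
        gcongr)
      (hint (j + 1) (b / 2) (by positivity))
      (ae_of_all _ fun ξ b' _ => by
        have h1 : HasDerivAt (fun b : ℝ => Real.exp (-(b * (‖ξ‖ ^ 2 / (4 * a)))))
            (Real.exp (-(b' * (‖ξ‖ ^ 2 / (4 * a)))) * -(1 * (‖ξ‖ ^ 2 / (4 * a)))) b' :=
          (((hasDerivAt_id b').mul_const _).neg).exp
        have h2 := (h1.const_mul ((‖ξ‖ ^ 2 / (4 * a)) ^ j)).mul_const (Real.cos (inner ℝ ξ x))
        refine h2.congr_deriv ?_
        ring)).2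
    rw [integral_neg] at hder
    -- derivative of the right hand side
    have hb0 : b ≠ 0 := hb.ne'
    have r1 : HasDerivAt (fun b : ℝ => b ^ (-α - j)) (1 * (-α - j) * b ^ (-α - j - 1)) b :=
      (hasDerivAt_id b).rpow_const (Or.inl hb0)
    have r2 : HasDerivAt (fun b : ℝ => s / b) (-(s / b ^ 2)) b := by
      have := (hasDerivAt_inv hb0).const_mul s
      simp only [div_eq_mul_inv]
      refine this.congr_deriv ?_
      ring
    have r3 : HasDerivAt (fun b : ℝ => (lagP α j).eval (s / b))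
        ((lagP α j).derivative.eval (s / b) * -(s / b ^ 2)) b :=
      ((lagP α j).hasDerivAt (s / b)).comp b r2
    have r4 : HasDerivAt (fun b : ℝ => Real.exp (-(s / b)))
        (Real.exp (-(s / b)) * -(-(s / b ^ 2))) b := r2.neg.exp
    have r5 := ((r1.mul r3).mul r4).const_mul K
    have heq : (fun b : ℝ => ∫ ξ : EV d, (‖ξ‖ ^ 2 / (4 * a)) ^ j *
        Real.exp (-(b * (‖ξ‖ ^ 2 / (4 * a)))) * Real.cos (inner ℝ ξ x)) =ᶠ[𝓝 b]
        fun b => K * (b ^ (-α - j) * (lagP α j).eval (s / b) * Real.exp (-(s / b))) := by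
      filter_upwards [Ioi_mem_nhds hb] with b' hb'
      exact ih b' hb'
    have h6 := (hder.congr_of_eventuallyEq heq.symm).unique r5
    simp only [Pi.mul_apply] at h6
    have h7 : ∫ ξ : EV d, (‖ξ‖ ^ 2 / (4 * a)) ^ (j + 1) *
        Real.exp (-(b * (‖ξ‖ ^ 2 / (4 * a)))) * Real.cos (inner ℝ ξ x) =
        -(-(∫ ξ : EV d, (‖ξ‖ ^ 2 / (4 * a)) ^ (j + 1) *
        Real.exp (-(b * (‖ξ‖ ^ 2 / (4 * a)))) * Real.cos (inner ℝ ξ x))) := by ring
    rw [h7, h6]
    simp only [lagP, Polynomial.eval_add, Polynomial.eval_mul, Polynomial.eval_sub,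
      Polynomial.eval_C, Polynomial.eval_X]
    have e1 : (-α - ((j + 1 : ℕ) : ℝ)) = -α - j - 1 := by
      push_cast
      ring
    rw [e1]
    have e2 : b ^ (-α - (j : ℝ)) = b ^ (-α - (j : ℝ) - 1) * b := by
      rw [Real.rpow_sub_one hb0]
      field_simp
    rw [e2]
    field_simp
    ring

/-- the transform side -/
noncomputable def qF (a : ℝ) {D : ℕ} (q : Fin D → ℝ) (ξ : EV d) : ℝ :=
  ((4 * Real.pi * a) ^ ((d : ℝ) / 2))⁻¹ * ∑ j, q j * ((‖ξ‖ ^ 2 / (4 * a)) ^ (j : ℕ) *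
    Real.exp (-(‖ξ‖ ^ 2 / (4 * a))))

/-- the function -/
noncomputable def pf (a : ℝ) {D : ℕ} (q : Fin D → ℝ) (x : EV d) : ℝ :=
  (∑ j, q j * (lagP ((d : ℝ) / 2) j).eval (a * ‖x‖ ^ 2)) * Real.exp (-(a * ‖x‖ ^ 2))

theorem four_int (a : ℝ) (ha : 0 < a) (j : ℕ) : Integrable (fun ξ : EV d =>
    (‖ξ‖ ^ 2 / (4 * a)) ^ j * Real.exp (-(‖ξ‖ ^ 2 / (4 * a)))) := by
  have h1 := (mom_int (d := d) (1 / (4 * a)) (by positivity) j).const_mul ((1 / (4 * a)) ^ j)
  refine h1.congr (ae_of_all _ fun ξ => ?_)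
  simp only
  rw [← mul_assoc, ← mul_pow]
  congr 2
  · ring
  · ring

theorem qF_int (a : ℝ) (ha : 0 < a) {D : ℕ} (q : Fin D → ℝ) : Integrable (qF (d := d) a q) := by
  unfold qF
  exact (integrable_finsetSum Finset.univ fun (j : Fin D) _ =>
    (four_int (d := d) a ha (j : ℕ)).const_mul (q j)).const_mul _

theorem poly_int (a : ℝ) (ha : 0 < a) (Q : Polynomial ℝ) : Integrable (fun x : EV d =>
    Q.eval (a * ‖x‖ ^ 2) * Real.exp (-(a * ‖x‖ ^ 2))) := by
  induction Q using Polynomial.induction_on' with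
  | add p q hp hq =>
    refine (hp.add hq).congr (ae_of_all _ fun x => ?_)
    simp only [Pi.add_apply, Polynomial.eval_add]
    ring
  | monomial n c =>
    refine ((mom_int (d := d) a ha n).const_mul (c * a ^ n)).congr (ae_of_all _ fun x => ?_)
    simp only [Polynomial.eval_monomial, mul_pow]
    ring

theorem pf_int (a : ℝ) (ha : 0 < a) {D : ℕ} (q : Fin D → ℝ) : Integrable (pf (d := d) a q) := by
  have h1 : Integrable (fun x : EV d => ∑ j, q j * ((lagP ((d : ℝ) / 2) j).eval (a * ‖x‖ ^ 2) *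
      Real.exp (-(a * ‖x‖ ^ 2)))) :=
    integrable_finsetSum _ fun j _ => (poly_int a ha _).const_mul _
  refine h1.congr (ae_of_all _ fun x => ?_)
  unfold pf
  simp only
  rw [Finset.sum_mul]
  exact Finset.sum_congr rfl fun j _ => by ring

theorem pf_eq (a : ℝ) (ha : 0 < a) {D : ℕ} (q : Fin D → ℝ) (x : EV d) :
    pf a q x = cosT (qF a q) x := by
  unfold cosT qF pf
  have hK : (4 * Real.pi * a) ^ ((d : ℝ) / 2) ≠ 0 := (Real.rpow_pos_of_pos (by positivity) _).ne'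
  have h1 : ∀ ξ : EV d, ((4 * Real.pi * a) ^ ((d : ℝ) / 2))⁻¹ * (∑ j : Fin D, q j *
      ((‖ξ‖ ^ 2 / (4 * a)) ^ (j : ℕ) * Real.exp (-(‖ξ‖ ^ 2 / (4 * a))))) *
      Real.cos (inner ℝ ξ x) = ∑ j : Fin D, ((4 * Real.pi * a) ^ ((d : ℝ) / 2))⁻¹ * q j *
        ((‖ξ‖ ^ 2 / (4 * a)) ^ (j : ℕ) * Real.exp (-(‖ξ‖ ^ 2 / (4 * a))) *
        Real.cos (inner ℝ ξ x)) := by
    intro ξ
    rw [mul_assoc, Finset.sum_mul, Finset.mul_sum]
    exact Finset.sum_congr rfl fun j _ => by ring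
  rw [integral_congr_ae (ae_of_all _ h1), integral_finsetSum Finset.univ fun (j : Fin D) _ =>
    (cosT_int _ (four_int a ha (j : ℕ)) x).const_mul _, Finset.sum_mul]
  refine Finset.sum_congr rfl fun j _ => ?_
  rw [integral_const_mul]
  have h2 := four a ha x j 1 one_pos
  simp only [one_mul, Real.one_rpow, div_one] at h2
  rw [h2]
  field_simp

theorem pf_zero (a : ℝ) {D : ℕ} (q : Fin D → ℝ) :
    pf (d := d) a q 0 = ∑ j, q j * (lagP ((d : ℝ) / 2) j).eval 0 := by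
  unfold pf
  simp

theorem lagP_zero (α : ℝ) (j : ℕ) :
    (lagP α (j + 1)).eval 0 = (α + j) * (lagP α j).eval 0 := by
  simp only [lagP, Polynomial.eval_add, Polynomial.eval_mul, Polynomial.eval_sub,
    Polynomial.eval_C, Polynomial.eval_X]
  ring

/-- the moments -/
theorem mom (a : ℝ) (ha : 0 < a) (j : ℕ) :
    ∫ x : EV d, (a * ‖x‖ ^ 2) ^ j * Real.exp (-(a * ‖x‖ ^ 2)) =
      (Real.pi / a) ^ ((d : ℝ) / 2) * (lagP ((d : ℝ) / 2) j).eval 0 := by
  have h1 := four (d := d) (1 / (4 * a)) (by positivity) 0 j 1 one_pos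
  simp only [inner_zero_right, Real.cos_zero, mul_one, one_mul, Real.one_rpow, div_one,
    norm_zero, ne_eq, OfNat.ofNat_ne_zero, not_false_eq_true, zero_pow, mul_zero, neg_zero,
    Real.exp_zero] at h1
  have h2 : 4 * Real.pi * (1 / (4 * a)) = Real.pi / a := by field_simp
  rw [h2] at h1
  rw [← h1]
  refine integral_congr_ae (ae_of_all _ fun x => ?_)
  simp only
  have h3 : ‖x‖ ^ 2 / (4 * (1 / (4 * a))) = a * ‖x‖ ^ 2 := by field_simp
  rw [h3]

/-- the integral of a polynomial times the Gaussian -/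
noncomputable def II0 (d : ℕ) (a : ℝ) (Q : Polynomial ℝ) : ℝ :=
  ∫ x : EV d, Q.eval (a * ‖x‖ ^ 2) * Real.exp (-(a * ‖x‖ ^ 2))

theorem II0_add (a : ℝ) (ha : 0 < a) (p q : Polynomial ℝ) :
    II0 d a (p + q) = II0 d a p + II0 d a q := by
  unfold II0
  rw [← integral_add (poly_int a ha p) (poly_int a ha q)]
  refine integral_congr_ae (ae_of_all _ fun x => ?_)
  simp only [Polynomial.eval_add]
  ring

theorem II0_smul (a c : ℝ) (p : Polynomial ℝ) :
    II0 d a (Polynomial.C c * p) = c * II0 d a p := by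
  unfold II0
  rw [← integral_const_mul]
  refine integral_congr_ae (ae_of_all _ fun x => ?_)
  simp only [Polynomial.eval_mul, Polynomial.eval_C]
  ring

theorem II0_mon (a : ℝ) (ha : 0 < a) (n : ℕ) (c : ℝ) :
    II0 d a (Polynomial.monomial n c) =
      c * ((Real.pi / a) ^ ((d : ℝ) / 2) * (lagP ((d : ℝ) / 2) n).eval 0) := by
  unfold II0
  rw [← mom a ha n, ← integral_const_mul]
  refine integral_congr_ae (ae_of_all _ fun x => ?_)
  simp only [Polynomial.eval_monomial]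
  ring

theorem II0_X (a : ℝ) (ha : 0 < a) (Q : Polynomial ℝ) :
    II0 d a (Polynomial.X * Q) = (d : ℝ) / 2 * II0 d a Q +
      II0 d a (Polynomial.X * Polynomial.derivative Q) := by
  induction Q using Polynomial.induction_on' with
  | add p q hp hq =>
    rw [mul_add, Polynomial.derivative_add, mul_add, II0_add a ha, II0_add a ha, II0_add a ha, hp,
      hq]
    ring
  | monomial n c =>
    rw [Polynomial.X_mul_monomial, II0_mon a ha, II0_mon a ha, lagP_zero,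
      Polynomial.derivative_monomial, Polynomial.X_mul_monomial, II0_mon a ha]
    rcases n with _ | n
    · simp only [Nat.cast_zero, mul_zero, zero_mul, add_zero]
      ring
    · simp only [Nat.add_sub_cancel]
      ring

theorem II0_lag (a : ℝ) (ha : 0 < a) (j : ℕ) :
    II0 d a (lagP ((d : ℝ) / 2) (j + 1)) = j * II0 d a (lagP ((d : ℝ) / 2) j) := by
  have h1 : lagP ((d : ℝ) / 2) (j + 1) = Polynomial.C ((d : ℝ) / 2 + j) * lagP ((d : ℝ) / 2) j +
      (Polynomial.C (-1) * (Polynomial.X * lagP ((d : ℝ) / 2) j) +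
      Polynomial.X * Polynomial.derivative (lagP ((d : ℝ) / 2) j)) := by
    simp only [lagP, map_neg, Polynomial.C_1]
    ring
  rw [h1, II0_add a ha, II0_add a ha, II0_smul, II0_smul, II0_X a ha (lagP ((d : ℝ) / 2) j)]
  ring

theorem II0_zero (a : ℝ) (ha : 0 < a) : II0 d a (lagP ((d : ℝ) / 2) 0) =
    (Real.pi / a) ^ ((d : ℝ) / 2) := by
  have h1 : lagP ((d : ℝ) / 2) 0 = Polynomial.monomial 0 1 := by simp [lagP]
  rw [h1, II0_mon a ha]
  simp [lagP]

theorem II0_pos (a : ℝ) (ha : 0 < a) (j : ℕ) : II0 d a (lagP ((d : ℝ) / 2) (j + 1)) = 0 := by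
  induction j with
  | zero => rw [II0_lag a ha]; simp
  | succ j ih => rw [II0_lag a ha, ih, mul_zero]

theorem pf_integral (a : ℝ) (ha : 0 < a) {D : ℕ} (q : Fin (D + 1) → ℝ) :
    ∫ x : EV d, pf a q x = (Real.pi / a) ^ ((d : ℝ) / 2) * q 0 := by
  have h1 : ∀ x : EV d, pf a q x = ∑ j : Fin (D + 1), q j *
      ((lagP ((d : ℝ) / 2) j).eval (a * ‖x‖ ^ 2) * Real.exp (-(a * ‖x‖ ^ 2))) := by
    intro x
    unfold pf
    rw [Finset.sum_mul]
    exact Finset.sum_congr rfl fun j _ => by ring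
  rw [integral_congr_ae (ae_of_all _ h1), integral_finsetSum _ fun j _ =>
    (poly_int a ha _).const_mul _]
  simp only [integral_const_mul]
  rw [Fin.sum_univ_succ]
  have h2 : ∀ j : Fin D, q j.succ * (∫ x : EV d,
      (lagP ((d : ℝ) / 2) ((j.succ : Fin (D + 1)) : ℕ)).eval (a * ‖x‖ ^ 2) *
        Real.exp (-(a * ‖x‖ ^ 2))) = 0 := by
    intro j
    have := II0_pos (d := d) a ha (j : ℕ)
    unfold II0 at this
    rw [Fin.val_succ, this, mul_zero]
  simp only [h2, Finset.sum_const_zero, add_zero]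
  have h3 := II0_zero (d := d) a ha
  unfold II0 at h3
  rw [Fin.val_zero, h3]
  ring

end Pool.Agent.Helper7.LP
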