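import Pool.Agent.Helper7.LP.Main
import Pool.Agent.Helper7.LP.Fourier
import Pool.Agent.Helper7.LP.E1
import Pool.Agent.Helper7.LP.Area

/-!
Project LP: from integer lists to the lower bound.
-/

set_option autoImplicit false

open MeasureTheory Set Filter Topology

namespace Pool.Agent.Helper7.LP

open Pool.Agent.Helper78.LE

/-- integer coefficients of `lagP` -/
def lagL (al : ℕ) : ℕ → List ℤ
  | 0 => [1]
  | j + 1 => addL (mulL [(al : ℤ) + j, -1] (lagL al j)) (0 :: derivL (lagL al j))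

theorem ev_lagL (al j : ℕ) (x : ℝ) : ev (lagL al j) x = (lagP (al : ℝ) j).eval x := by
  induction j generalizing x with
  | zero => simp [lagL, lagP]
  | succ j ih =>
    have h1 : ev (lagL al j) = fun x => (lagP (al : ℝ) j).eval x := funext ih
    have h2 : ev (derivL (lagL al j)) x = (lagP (al : ℝ) j).derivative.eval x := by
      have h3 := ev_hasDerivAt (lagL al j) x
      rw [h1] at h3
      exact h3.unique ((lagP (al : ℝ) j).hasDerivAt x)
    simp only [lagL, lagP, ev_addL, ev_mulL, ev_cons, ev_nil, Polynomial.eval_add,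
      Polynomial.eval_mul, Polynomial.eval_sub, Polynomial.eval_C, Polynomial.eval_X, ih, h2]
    push_cast
    ring

/-- `Σ m_j P_(k+j)` -/
def combL (al : ℕ) : ℕ → List ℤ → List ℤ
  | _, [] => []
  | k, m :: L => addL (smulL m (lagL al k)) (combL al (k + 1) L)

theorem ev_combL (al : ℕ) (L : List ℤ) (k : ℕ) (x : ℝ) :
    ev (combL al k L) x = ∑ j : Fin L.length, ((L.get j : ℤ) : ℝ) *
      (lagP (al : ℝ) (k + j)).eval x := by
  induction L generalizing k with
  | nil => simp [combL]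
  | cons m L ih =>
    simp only [combL, ev_addL, ev_smulL, ev_lagL, ih]
    refine Eq.trans ?_ (Fin.sum_univ_succ (n := L.length) (fun j : Fin (L.length + 1) =>
      (((m :: L).get j : ℤ) : ℝ) * (lagP (al : ℝ) (k + j)).eval x)).symm
    congr 1
    refine Finset.sum_congr rfl fun j _ => ?_
    simp only [List.get_eq_getElem, Fin.val_succ, List.getElem_cons_succ]
    congr 3
    omega

theorem ev_sum (L : List ℤ) (x : ℝ) :
    ev L x = ∑ j : Fin L.length, ((L.get j : ℤ) : ℝ) * x ^ (j : ℕ) := by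
  induction L with
  | nil => simp
  | cons m L ih =>
    rw [ev_cons, ih, Finset.mul_sum]
    refine Eq.trans ?_ (Fin.sum_univ_succ (n := L.length) (fun j : Fin (L.length + 1) =>
      (((m :: L).get j : ℤ) : ℝ) * x ^ (j : ℕ))).symm
    congr 1
    · simp
    · refine Finset.sum_congr rfl fun j _ => ?_
      simp only [List.get_eq_getElem, Fin.val_succ, List.getElem_cons_succ]
      ring

/-- the constant of a certificate -/
noncomputable def certC (al : ℕ) (a : ℝ) (m0 : ℤ) (m : List ℤ) (M : ℕ) : ℝ :=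
  1 / ((2 * al : ℕ) : ℝ) * Real.log (2 * (2 * Real.pi) ^ al / ((2 * al - 1).doubleFactorial : ℕ)) +
    1 / 2 * (-Real.log a - Real.eulerMascheroniConstant - 1 / al * (Real.pi / a) ^ al +
      ((Real.pi / a) ^ al * m0 - ev (combL al 0 (m0 :: m)) 0) / M)

theorem cert (al : ℕ) (hal : 0 < al) (a : ℝ) (ha : 0 < a) (m0 : ℤ) (m : List ℤ) (M : ℕ)
    (hM : 0 < M) (N D : List ℤ) (hok : okE N D = true)
    (hQ : ∀ y : ℝ, 0 ≤ y → 0 ≤ ev (m0 :: m) y)
    (hR : ∀ s : ℝ, 0 ≤ s →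
      0 ≤ ev (addL (smulL M N) (smulL (-1) (mulL (combL al 0 (m0 :: m)) D))) s)
    (ε : ℝ) (hε : 0 < ε) :
    ∀ᶠ N : ℕ in atTop, Vlog (2 * al) * (N : ℝ) ^ 2 -
      1 / ((2 * al : ℕ) : ℝ) * (N * Real.log N) + (certC al a m0 m M - ε) * N ≤
        minLog (2 * al) N := by
  have hM' : (0 : ℝ) < M := by exact_mod_cast hM
  have hal2 : (((2 * al : ℕ) : ℝ) / 2) = al := by
    push_cast
    ring
  let q : Fin (m.length + 1) → ℝ := fun j => (((m0 :: m).get j : ℤ) : ℝ) / M
  have hQ' : ∀ y : ℝ, 0 ≤ y → 0 ≤ ∑ j, q j * y ^ (j : ℕ) := by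
    intro y hy
    have h1 := hQ y hy
    rw [ev_sum] at h1
    have h2 : ∑ j, q j * y ^ (j : ℕ) = (∑ j : Fin (m0 :: m).length,
        (((m0 :: m).get j : ℤ) : ℝ) * y ^ (j : ℕ)) / M := by
      rw [Finset.sum_div]
      refine Finset.sum_congr rfl fun j _ => ?_
      simp only [q]
      ring
    rw [h2]
    positivity
  have hP : ∀ s : ℝ, ∑ j, q j * (lagP (((2 * al : ℕ) : ℝ) / 2) j).eval s =
      ev (combL al 0 (m0 :: m)) s / M := by
    intro s
    rw [ev_combL, Finset.sum_div, hal2]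
    refine Finset.sum_congr rfl fun j _ => ?_
    simp only [q, zero_add]
    ring
  have hF0 : ∀ ξ : EV (2 * al), 0 ≤ qF a q ξ := by
    intro ξ
    unfold qF
    have h1 := hQ' (‖ξ‖ ^ 2 / (4 * a)) (by positivity)
    have h2 : ∑ j, q j * ((‖ξ‖ ^ 2 / (4 * a)) ^ (j : ℕ) * Real.exp (-(‖ξ‖ ^ 2 / (4 * a)))) =
        (∑ j, q j * (‖ξ‖ ^ 2 / (4 * a)) ^ (j : ℕ)) * Real.exp (-(‖ξ‖ ^ 2 / (4 * a))) := by
      rw [Finset.sum_mul]
      exact Finset.sum_congr rfl fun j _ => by ring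
    rw [h2]
    have h3 : 0 ≤ ((4 * Real.pi * a) ^ (((2 * al : ℕ) : ℝ) / 2))⁻¹ :=
      inv_nonneg.2 (Real.rpow_nonneg (by positivity) _)
    exact mul_nonneg h3 (mul_nonneg h1 (Real.exp_pos _).le)
  have hle : ∀ x : EV (2 * al), x ≠ 0 → pf a q x ≤ VV a ‖x‖ := by
    intro x hx
    have hr : 0 < ‖x‖ := norm_pos_iff.2 hx
    refine le_trans ?_ (E1_ge N D hok a ‖x‖ ha hr)
    unfold pf
    rw [hP]
    refine mul_le_mul_of_nonneg_right ?_ (Real.exp_pos _).le
    have h1 := hR (a * ‖x‖ ^ 2) (by positivity)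
    rw [ev_addL, ev_smulL, ev_smulL, ev_mulL] at h1
    push_cast at h1
    simp only [okE, Bool.and_eq_true] at hok
    have h2 := nnL_sound _ hok.1.1.1.2 (a * ‖x‖ ^ 2) (by positivity)
    rw [ev_addL] at h2
    simp only [ev_cons, ev_nil, mul_zero, add_zero] at h2
    push_cast at h2
    have h3 : 0 < ev D (a * ‖x‖ ^ 2) := by linarith
    rw [div_le_div_iff₀ hM' h3]
    linarith
  have h := lp (d := 2 * al) (by omega) a ha (qF a q) (pf a q) (qF_int a ha q) hF0
    (pf_eq a ha q) (pf_int a ha q) hle ε hε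
  filter_upwards [h] with K hK
  refine le_trans (le_of_eq ?_) hK
  congr 2
  rw [sphArea_even, EI_eq a ha, pf_integral a ha, pf_zero, hP 0, hal2]
  unfold certC
  have h5 : q 0 = (m0 : ℝ) / M := by simp [q]
  have h6 : (Real.pi / a) ^ (al : ℝ) = (Real.pi / a) ^ al := Real.rpow_natCast _ _
  have h7 : (2 : ℝ) / ((2 * al : ℕ) : ℝ) = 1 / al := by
    have : (al : ℝ) ≠ 0 := by positivity
    push_cast
    field_simp
  rw [h5, h6, h7]
  ring

/-- without `ε` -/
theorem cert_lt (al : ℕ) (hal : 0 < al) (a : ℝ) (ha : 0 < a) (m0 : ℤ) (m : List ℤ) (M : ℕ)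
    (hM : 0 < M) (N D : List ℤ) (hok : okE N D = true)
    (hQ : ∀ y : ℝ, 0 ≤ y → 0 ≤ ev (m0 :: m) y)
    (hR : ∀ s : ℝ, 0 ≤ s →
      0 ≤ ev (addL (smulL M N) (smulL (-1) (mulL (combL al 0 (m0 :: m)) D))) s)
    (c : ℝ) (hc : c < certC al a m0 m M) :
    ∀ᶠ N : ℕ in atTop, Vlog (2 * al) * (N : ℝ) ^ 2 -
      1 / ((2 * al : ℕ) : ℝ) * (N * Real.log N) + c * N ≤ minLog (2 * al) N := by
  have h := cert al hal a ha m0 m M hM N D hok hQ hR (certC al a m0 m M - c) (by linarith)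
  filter_upwards [h] with K hK
  rw [sub_sub_cancel] at hK
  exact hK

end Pool.Agent.Helper7.LP
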