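import Pool.Agent.Helper7.LP.E1

/-!
Project LP: the convergent of order 20 of `e^x E₁(x)`.
-/

set_option autoImplicit false

namespace Pool.Agent.Helper7.LP

/-- numerator of the convergent -/
def N20 : List ℤ :=
  [8752948036761600000, 86495828444928000000, 244601365670323200000, 316924791232896000000,
    229816140399014400000, 104083764616445644800, 31514532854041036800, 6673622203368806400,
    1019457568822492800, 114752015813635200, 9651947148043200, 611531343259200, 29259931209600,
    1053919843200, 28296676800, 555721024, 7726194, 71802, 399, 1]

/-- denominator of the convergent -/
def D20 : List ℤ :=
  [2432902008176640000, 48658040163532800000, 231125690776780800000, 462251381553561600000,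
    491142092900659200000, 314330939456421888000, 130971224773509120000, 37420349935288320000,
    7601008580605440000, 1126075345274880000, 123868287980236800, 10237048593408000,
    639815537088000, 30287126016000, 1081683072000, 28844881920, 563376600, 7797600, 72200,
    400, 1]

theorem ok20 : okE N20 D20 = true := by decide +kernel

end Pool.Agent.Helper7.LP
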