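import Pool.Agent.Helper7.LP.E1

/-!
Project LP: the convergent of order 24 of `e^x E₁(x)`.
-/

set_option autoImplicit false

namespace Pool.Agent.Helper7.LP

/-- numerator of the convergent -/
def N24 : List ℤ :=
  [2342787216398718566400000, 28788157126772471070720000, 101501141884834019328000000,
    164971473975826877399040000, 151348314524001154560000000, 87658915290275975521075200,
    34387117797597064980480000, 9581664455085155457024000, 1961455947339531202560000,
    302321334010769289216000, 35722556551441196236800, 3278622607508647526400,
    235875671379758592000, 13378188776530636800, 599691866519808000, 21230914499352576,
    591105727645200, 12832064994960, 214129175400, 2685606840, 24428250, 151778, 575, 1]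

/-- denominator of the convergent -/
def D24 : List ℤ :=
  [620448401733239439360000, 14890761641597746544640000, 85621879439187042631680000,
    209297927518012770877440000, 274703529867391761776640000, 219762823893913409421312000,
    115985934832898743861248000, 42607078101881171214336000, 11317505120812186103808000,
    2235556567074012069888000, 335333485061101810483200, 38798915626904341708800,
    3502679882984419737600, 248710997608361164800, 13958270273938636800, 620367567730606080,
    21809797303029120, 603731413232640, 13043579915520, 216790801920, 2709885024, 24579456,
    152352, 576, 1]

theorem ok24 : okE N24 D24 = true := by decide +kernel

end Pool.Agent.Helper7.LP
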