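import Pool.Agent.Helper7.LP.E1

/-!
Project LP: the convergent of order 28 of `e^x E₁(x)`.
-/

set_option autoImplicit false

namespace Pool.Agent.Helper7.LP

/-- numerator of the convergent -/
def N28 : List ℤ :=
  [1197348677077520393310044160000, 17649364336992115217907056640000,
    74746335395826944499518668800000, 146480242258073408053572403200000,
    162906550017712622486972006400000, 115155224328583200982510338048000,
    55580103093191041758789107712000, 19235221282321623966697390080000,
    4944161002001654376641617920000, 968863454839327092841635840000,
    147649854237895558513623859200, 17767468760231722001824972800,
    1708126311768486375886848000, 132359236300922826166272000, 8319886313340276025344000,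
    426055248853455833579520, 17814755560410768516480, 608365125004897814400,
    16935328709313537600, 382635800403595200, 6965899150218624, 101052448100736, 1149140683200,
    9997588800, 64108850, 284986, 783, 1]

/-- denominator of the convergent -/
def D28 : List ℤ :=
  [304888344611713860501504000000, 8536873649127988094042112000000,
    57623897131613919634784256000000, 166469036157995767833821184000000,
    260107868996868387240345600000000, 249703554236993651750731776000000,
    159532826318079277507411968000000, 71626983244851920513531904000000,
    23502603877217036418502656000000, 5803112068448650967531520000000,
    1102591293005243683830988800000, 164021845240449473627750400000,
    19363690063108618414387200000, 1833248763371230145740800000, 140299650258002307072000000,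
    8729756016053476884480000, 443307922690215623040000, 18407249385060856320000,
    624937479122436480000, 17311287510316800000, 389503968982128000, 7065831636864000,
    102191779872000, 1159075008000, 10061415000, 64393056, 285768, 784, 1]

theorem ok28 : okE N28 D28 = true := by decide +kernel

end Pool.Agent.Helper7.LP
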