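import Pool.Agent.Helper7.LP.Defs
import Pool.Agent.Helper78.LE.LB7
import Pool.Agent.Helper78.LE.LB8
import Pool.Agent.Helper78.LE.LB11a

/-!
Project LP: from boxes to the sphere (variant of Helper78/LE/LB11a.lean for a decreasing
potential instead of the Gaussian; same proof: core, growth, rot_choice, cover_low).
-/

set_option autoImplicit false

open MeasureTheory Set Filter Topology

namespace Pool.Agent.Helper7.LP

open Pool.Agent.Helper78.LE

variable {d : ℕ}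

theorem core (V : ℝ → ℝ) (hV0 : ∀ r, 0 < r → 0 ≤ V r)
    (hV : AntitoneOn V (Ioi 0)) (lam : ℝ) (hlam : 0 < lam) {G : ℕ} (a : Fin G → Fin d → ℝ)
    (h : ℝ) (hh : 0 < h) (c : Fin G → ℝ) (hc : ∀ j, 0 < c j) (A : ℝ)
    (hcov : ∀ y : EV d, (∀ l, -A ≤ y l ∧ y l < A) → ∃ j, ∀ l, a j l ≤ y l ∧ y l < a j l + h)
    (hcf : ∀ (j : Fin G) (y : EV d), (∀ l, a j l ≤ y l ∧ y l < a j l + h) → cfac y ≤ c j)
    (M : ℕ) (hM : 0 < M) (nn : Fin G → ℕ) (hnn : ∀ j, h * lam * c j ≤ M * nn j) {N : ℕ}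
    (x : Fin N → EV (d + 1)) (hinj : Function.Injective x) (R : EV (d + 1) ≃ₗᵢ[ℝ] EV (d + 1))
    (S : Finset (Fin N)) (y : Fin N → EV d)
    (hy : ∀ i ∈ S, R (x i) = stereo (y i) ∧ ∀ l, -A ≤ y i l ∧ y i l < A) :
    ∃ (κ : Fin S.card → Fin (∑ j, nn j ^ d)) (p : Fin S.card → EV d),
      (∀ i l, 0 ≤ p i l ∧ p i l < M) ∧ (∀ i j, κ i = κ j → p i = p j → i = j) ∧
      labV V κ p ≤ vE (fun r => V (lam * r)) x := by
  classical
  have hM0 : (0 : ℝ) < M := by exact_mod_cast hM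
  have hn0 : ∀ j, (0 : ℝ) < nn j := by
    intro j
    have h1 := hnn j
    have h2 : 0 < h * lam * c j := by have := hc j; positivity
    have h3 : (0 : ℝ) < M * nn j := lt_of_lt_of_le h2 h1
    exact (mul_pos_iff_of_pos_left hM0).1 h3
  let e : Fin S.card ≃ S := S.equivFin.symm
  have hex : ∀ i : Fin S.card, ∃ j, ∀ l, a j l ≤ y (e i) l ∧ y (e i) l < a j l + h :=
    fun i => hcov (y (e i)) (hy (e i) (e i).2).2
  choose jj hjj using hex
  -- rescaled coordinate
  let z : Fin S.card → Fin d → ℝ := fun i l => (y (e i) l - a (jj i) l) * (nn (jj i) / h)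
  have hz0 : ∀ i l, 0 ≤ z i l := fun i l =>
    mul_nonneg (sub_nonneg.2 (hjj i l).1) (by have := hn0 (jj i); positivity)
  have hz1 : ∀ i l, z i l < nn (jj i) := by
    intro i l
    have h1 : y (e i) l - a (jj i) l < h := by linarith [(hjj i l).2]
    have h2 : 0 < (nn (jj i) : ℝ) / h := div_pos (hn0 _) hh
    calc z i l < h * (nn (jj i) / h) := mul_lt_mul_of_pos_right h1 h2
      _ = nn (jj i) := by field_simp
  have hfl : ∀ i l, ⌊z i l⌋₊ < nn (jj i) := fun i l => (Nat.floor_lt (hz0 i l)).2 (hz1 i l)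
  let lab : Fin S.card → (Σ j : Fin G, (Fin d → Fin (nn j))) :=
    fun i => ⟨jj i, fun l => ⟨⌊z i l⌋₊, hfl i l⟩⟩
  have hcard : Fintype.card (Σ j : Fin G, (Fin d → Fin (nn j))) = ∑ j, nn j ^ d := by
    rw [Fintype.card_sigma]
    simp
  let eq := Fintype.equivFinOfCardEq hcard
  have hlab : ∀ i i', eq (lab i) = eq (lab i') → jj i = jj i' ∧ ∀ l, ⌊z i l⌋₊ = ⌊z i' l⌋₊ := by
    intro i i' hii
    have h1 : lab i = lab i' := eq.injective hii
    have h2 := congrArg (fun q : (Σ j : Fin G, (Fin d → Fin (nn j))) =>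
      ((q.1, fun l => (q.2 l : ℕ)) : Fin G × (Fin d → ℕ))) h1
    have h3 := Prod.ext_iff.1 h2
    exact ⟨h3.1, fun l => congrFun h3.2 l⟩
  let p : Fin S.card → EV d := fun i => WithLp.toLp 2 (fun l => (M : ℝ) * (z i l - ⌊z i l⌋₊))
  have hpl : ∀ i l, p i l = (M : ℝ) * (z i l - ⌊z i l⌋₊) := fun i l => rfl
  -- differences in the same cell
  have hdiff : ∀ i i', eq (lab i) = eq (lab i') →
      p i - p i' = ((M : ℝ) * (nn (jj i) / h)) • (y (e i) - y (e i')) := by
    intro i i' hii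
    obtain ⟨h1, h2⟩ := hlab i i' hii
    ext l
    have h3 : z i' l = (y (e i') l - a (jj i) l) * (nn (jj i) / h) := by
      change (y (e i') l - a (jj i') l) * (nn (jj i') / h) = _
      rw [← h1]
    have h4 : z i l = (y (e i) l - a (jj i) l) * (nn (jj i) / h) := rfl
    rw [PiLp.sub_apply, PiLp.smul_apply, PiLp.sub_apply, hpl, hpl, ← h2 l, h3, h4, smul_eq_mul]
    ring
  have hRx : ∀ i i', lam * ‖x (e i) - x (e i')‖ = lam * (‖y (e i) - y (e i')‖ *
      √(cfac (y (e i)) * cfac (y (e i')))) := by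
    intro i i'
    rw [← norm_stereo_sub, ← (hy (e i) (e i).2).1, ← (hy (e i') (e i').2).1, ← map_sub,
      LinearIsometryEquiv.norm_map]
  have hnorm : ∀ i i', eq (lab i) = eq (lab i') →
      lam * ‖x (e i) - x (e i')‖ ≤ ‖p i - p i'‖ := by
    intro i i' hii
    rw [hRx, hdiff i i' hii, norm_smul, Real.norm_eq_abs, abs_of_pos (by
      have := hn0 (jj i); positivity)]
    obtain ⟨h1, h2⟩ := hlab i i' hii
    have h3 : cfac (y (e i)) ≤ c (jj i) := hcf _ _ (hjj i)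
    have h4 : cfac (y (e i')) ≤ c (jj i) := by
      rw [h1]
      exact hcf _ _ (hjj i')
    have h5 : √(cfac (y (e i)) * cfac (y (e i'))) ≤ c (jj i) := by
      rw [Real.sqrt_le_left (hc _).le, pow_two]
      exact mul_le_mul h3 h4 (cfac_pos _).le (hc _).le
    have h6 : lam * c (jj i) ≤ (M : ℝ) * (nn (jj i) / h) := by
      rw [← mul_div_assoc, le_div_iff₀ hh]
      calc lam * c (jj i) * h = h * lam * c (jj i) := by ring
        _ ≤ _ := hnn _
    calc lam * (‖y (e i) - y (e i')‖ * √(cfac (y (e i)) * cfac (y (e i')))) ≤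
          lam * (‖y (e i) - y (e i')‖ * c (jj i)) := by gcongr
      _ = lam * c (jj i) * ‖y (e i) - y (e i')‖ := by ring
      _ ≤ (M : ℝ) * (nn (jj i) / h) * ‖y (e i) - y (e i')‖ := by gcongr
  have hse : ∀ i i', x (e i) = x (e i') → i = i' := by
    intro i i' hii
    exact e.injective (Subtype.ext (hinj hii))
  refine ⟨fun i => eq (lab i), p, ?_, ?_, ?_⟩
  · intro i l
    rw [hpl]
    have h1 := Nat.floor_le (hz0 i l)
    have h2 := Nat.lt_floor_add_one (z i l)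
    constructor
    · exact mul_nonneg hM0.le (by linarith)
    · calc (M : ℝ) * (z i l - ⌊z i l⌋₊) < M * 1 := mul_lt_mul_of_pos_left (by linarith) hM0
        _ = M := mul_one _
  · intro i i' hii hpp
    have h1 := hnorm i i' hii
    rw [hpp, sub_self, norm_zero] at h1
    have h2 : ‖x (e i) - x (e i')‖ ≤ 0 := by
      by_contra hcon
      push Not at hcon
      have : 0 < lam * ‖x (e i) - x (e i')‖ := mul_pos hlam hcon
      linarith
    exact hse i i' (sub_eq_zero.1 (norm_le_zero_iff.1 h2))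
  · have hpos : ∀ u v, u ≠ v → 0 < lam * ‖x u - x v‖ := by
      intro u v huv
      refine mul_pos hlam (norm_pos_iff.2 (sub_ne_zero.2 fun h => huv (hinj h)))
    have h1 := LB11.sum_le_sum S (fun u v => if u = v then 0 else V (lam * ‖x u - x v‖))
      (fun u v => by
        split_ifs with h
        · exact le_rfl
        · exact hV0 _ (hpos u v h)) e
    refine le_trans ?_ h1
    unfold labV
    refine Finset.sum_le_sum fun i _ => Finset.sum_le_sum fun i' _ => ?_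
    by_cases hii : i = i'
    · subst hii
      simp
    · have h2 : ¬ (e i : Fin N) = e i' := fun h3 => hii (e.injective (Subtype.ext h3))
      rw [if_neg h2]
      split_ifs with h3
      · have h4 := hpos _ _ h2
        exact hV h4 (lt_of_lt_of_le h4 (hnorm i i' h3.2)) (hnorm i i' h3.2)
      · exact hV0 _ (hpos _ _ h2)

theorem local_V (hd : 0 < d) (V : ℝ → ℝ) (hV0 : ∀ r, 0 < r → 0 ≤ V r)
    (hV : AntitoneOn V (Ioi 0)) (c0 f0 : ℝ) (hc0 : 0 ≤ c0) (hf0 : 0 ≤ f0)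
    (box : ∀ δ : ℝ, 0 < δ → ∃ M : ℕ, 0 < M ∧
      ∀ (n K : ℕ) (κ : Fin n → Fin K) (p : Fin n → EV d), 0 < n →
        (∀ i l, 0 ≤ p i l ∧ p i l < M) → (∀ i j, κ i = κ j → p i = p j → i = j) →
        2 * n * c0 - K * (M : ℝ) ^ d * c0 - n * f0 - δ * (n + K * (M : ℝ) ^ d) ≤ labV V κ p)
    (ε : ℝ) (hε : 0 < ε) :
    ∀ᶠ N : ℕ in atTop, ∀ x : Fin N → EV (d + 1), (∀ i, ‖x i‖ = 1) → Function.Injective x →
      N * (c0 - f0 - ε) ≤ vE (fun r => V (√(rate d N) * r)) x := by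
  set δ : ℝ := min (1 / 2) (ε / (5 * (c0 + 1))) with hδdef
  have hδ : 0 < δ := by
    rw [hδdef]
    positivity
  have hδ1 : δ ≤ 1 / 2 := min_le_left _ _
  have hδ2 : 5 * δ * (c0 + 1) ≤ ε := by
    have h1 : δ ≤ ε / (5 * (c0 + 1)) := min_le_right _ _
    rw [le_div_iff₀ (by positivity)] at h1
    linarith
  obtain ⟨A, hA, hrot⟩ := rot_choice hd δ hδ
  obtain ⟨G, a, h, c, hh, hcpos, hcov, hcf, hsum⟩ := cover_low hd A δ hA hδ
  obtain ⟨M, hM, hbox⟩ := box δ hδ
  have hH := sphArea_pos d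
  have hM0 : (0 : ℝ) < M := by exact_mod_cast hM
  have hd0 : (d : ℝ) ≠ 0 := by
    have : (0 : ℝ) < d := by exact_mod_cast hd
    exact this.ne'
  have hlt : (1 + δ) * sphArea d < (1 + δ) ^ 2 * sphArea d := by
    have : (1 + δ) < (1 + δ) ^ 2 := by nlinarith
    gcongr
  have hg := LB11.growth (d := d) h hh c hcpos M hM _ _ hsum hlt
  have hlamt : Tendsto (fun N : ℕ => ((N : ℝ) / sphArea d) ^ ((1 : ℝ) / d)) atTop atTop := by
    refine (tendsto_rpow_atTop (by positivity)).comp ?_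
    exact tendsto_natCast_atTop_atTop.atTop_div_const hH
  filter_upwards [hlamt.eventually hg, eventually_ge_atTop 1] with N hN1 hN x hx hinj
  obtain ⟨R, S, y, hcard, hy⟩ := hrot N x hx
  set lam : ℝ := ((N : ℝ) / sphArea d) ^ ((1 : ℝ) / d) with hlam
  have hN0 : (0 : ℝ) < N := by exact_mod_cast hN
  have hNH : 0 < (N : ℝ) / sphArea d := by positivity
  have hlam0 : 0 < lam := Real.rpow_pos_of_pos hNH _
  have hlamd : lam ^ d = (N : ℝ) / sphArea d := by
    rw [hlam, ← Real.rpow_natCast, ← Real.rpow_mul hNH.le, one_div, inv_mul_cancel₀ hd0,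
      Real.rpow_one]
  have hrate : rate d N = lam ^ 2 := by
    unfold rate
    rw [hlam, ← Real.rpow_natCast, ← Real.rpow_mul hNH.le]
    congr 1
    push_cast
    ring
  have hsq : √(rate d N) = lam := by
    rw [hrate, Real.sqrt_sq hlam0.le]
  rw [hsq]
  have hnn : ∀ j, h * lam * c j ≤ (M : ℝ) * (⌈h * lam * c j / M⌉₊ : ℕ) := by
    intro j
    have h1 := Nat.le_ceil (h * lam * c j / M)
    rw [div_le_iff₀ hM0] at h1
    linarith
  have hcore := core V hV0 hV lam hlam0 a h hh c hcpos A hcov hcf M hM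
    (fun j => ⌈h * lam * c j / M⌉₊) hnn x hinj R S y hy
  rw [hlamd] at hN1
  generalize ∑ j, ⌈h * lam * c j / M⌉₊ ^ d = K at hN1 hcore
  obtain ⟨κ, p, hp1, hp2, hp3⟩ := hcore
  have hS0 : (0 : ℝ) < S.card := by
    have : 0 < (1 - δ) * N := mul_pos (by linarith) hN0
    linarith
  have hSn : 0 < S.card := by exact_mod_cast hS0
  have hSN : (S.card : ℝ) ≤ N := by
    have : S.card ≤ N := by simpa using Finset.card_le_univ S
    exact_mod_cast this
  have hK := hbox S.card _ κ p hSn hp1 hp2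
  have hN2 : (K : ℝ) * (M : ℝ) ^ d ≤ (1 + δ) ^ 2 * N := by
    refine hN1.trans (le_of_eq ?_)
    field_simp
  refine le_trans ?_ (hK.trans hp3)
  have e1 : 2 * ((1 - δ) * N) * c0 ≤ 2 * (S.card : ℝ) * c0 := by gcongr
  have e2 : (K : ℝ) * (M : ℝ) ^ d * c0 ≤ (1 + δ) ^ 2 * N * c0 := by gcongr
  have e3 : (S.card : ℝ) * f0 ≤ N * f0 := by gcongr
  have e4 : δ * ((S.card : ℝ) + K * (M : ℝ) ^ d) ≤ δ * (N + (1 + δ) ^ 2 * N) := by gcongr
  have e5 : N * (5 * δ * (c0 + 1)) ≤ N * ε := by gcongr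
  have e6 : (1 + δ) ^ 2 ≤ 1 + 3 * δ := by nlinarith
  have e7 : (1 + δ) ^ 2 * (N * c0) ≤ (1 + 3 * δ) * (N * c0) := by gcongr
  have e8 : δ * ((1 + δ) ^ 2 * N) ≤ δ * ((1 + 3 * (1 / 2)) * N) := by
    have : (1 + δ) ^ 2 ≤ 1 + 3 * (1 / 2) := by linarith
    gcongr
  nlinarith [mul_nonneg hδ.le hN0.le, mul_nonneg (mul_nonneg hδ.le hN0.le) hc0]

end Pool.Agent.Helper7.LP
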