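import Mathlib

/-!
Project LP: numerical bounds for logarithms and powers of `π`.
-/

set_option autoImplicit false

namespace Pool.Agent.Helper7.LP

theorem log_le_of (x y : ℝ) (n : ℕ) (hx : 0 < x) (hy : 0 ≤ y)
    (h : x ≤ ∑ i ∈ Finset.range n, y ^ i / (i.factorial : ℝ)) : Real.log x ≤ y := by
  rw [Real.log_le_iff_le_exp hx]
  exact h.trans (Real.sum_le_exp_of_nonneg hy n)

theorem log_le_neg (x y : ℝ) (n : ℕ) (hn : 0 < n) (hx : 0 < x) (hy : 0 ≤ y) (hy1 : y ≤ 1)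
    (h : (∑ i ∈ Finset.range n, y ^ i / (i.factorial : ℝ) +
      y ^ n * (n + 1) / (n.factorial * n)) * x ≤ 1) : Real.log x ≤ -y := by
  rw [Real.log_le_iff_le_exp hx, Real.exp_neg, ← one_div, le_div_iff₀ (Real.exp_pos y)]
  have h1 := Real.exp_bound' hy hy1 hn
  calc x * Real.exp y ≤ x * (∑ i ∈ Finset.range n, y ^ i / (i.factorial : ℝ) +
      y ^ n * (n + 1) / (n.factorial * n)) := by gcongr
    _ ≤ 1 := by linarith

theorem pi_pow_lt (k : ℕ) (hk : k ≠ 0) : Real.pi ^ k < 3.14159265358979323847 ^ k :=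
  pow_lt_pow_left₀ Real.pi_lt_d20 Real.pi_pos.le hk

theorem pi_pow_gt (k : ℕ) (hk : k ≠ 0) : (3.14159265358979323846 : ℝ) ^ k < Real.pi ^ k :=
  pow_lt_pow_left₀ Real.pi_gt_d20 (by norm_num) hk

end Pool.Agent.Helper7.LP
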