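import Pool.Agent.Helper7.LP.Box
import Pool.Agent.Helper7.LP.Local
import Pool.Agent.Helper7.LP.Assembly

/-!
Project LP: the linear programming bound.
-/

set_option autoImplicit false

open MeasureTheory Set Filter Topology

namespace Pool.Agent.Helper7.LP

open Pool.Agent.Helper78.LE

variable {d : ℕ}

theorem VV_nonneg (a r : ℝ) (ha : 0 < a) : 0 ≤ VV a r := by
  unfold VV
  refine setIntegral_nonneg measurableSet_Ioi fun t ht => ?_
  have : 0 < t := ha.trans ht
  positivity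

theorem VV_anti (a : ℝ) (ha : 0 < a) : AntitoneOn (VV a) (Ioi 0) := by
  intro r hr r' hr' h
  unfold VV
  have hr0 : 0 < r := hr
  refine setIntegral_mono_on (VV_int a r' ha hr') (VV_int a r ha hr) measurableSet_Ioi ?_
  intro t ht
  have ht0 : 0 < t := ha.trans ht
  gcongr

theorem box_zero (F f : EV d → ℝ) (hF : Integrable F) (hF0 : ∀ ξ, 0 ≤ F ξ)
    (hf : ∀ x, f x = cosT F x) (hfi : Integrable f) : 0 ≤ ∫ x, f x := by
  by_contra hcon
  push Not at hcon
  obtain ⟨M, hM, h⟩ := box F f hF hF0 hf hfi (-(∫ x, f x) / 2) (by linarith)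
  have h1 := h 0 1 Fin.elim0 Fin.elim0 (fun i => Fin.elim0 i)
  simp only [Nat.cast_zero, mul_zero, zero_mul, zero_sub, Nat.cast_one, one_mul, zero_add,
    Finset.univ_eq_empty, Finset.sum_empty] at h1
  have hMd : 0 < (M : ℝ) ^ d := by
    have : (0 : ℝ) < M := by exact_mod_cast hM
    positivity
  have h2 : 0 < (M : ℝ) ^ d * (-(∫ x, f x)) := mul_pos hMd (by linarith)
  nlinarith

/-- The linear programming bound for the minimal logarithmic energy. -/
theorem lp (hd : 0 < d) (a : ℝ) (ha : 0 < a) (F f : EV d → ℝ) (hF : Integrable F)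
    (hF0 : ∀ ξ, 0 ≤ F ξ) (hf : ∀ x, f x = cosT F x) (hfi : Integrable f)
    (hle : ∀ x, x ≠ 0 → f x ≤ VV a ‖x‖) (ε : ℝ) (hε : 0 < ε) :
    ∀ᶠ N : ℕ in atTop, Vlog d * (N : ℝ) ^ 2 - 1 / d * (N * Real.log N) +
      (1 / d * Real.log (sphArea d) +
        1 / 2 * (EI a - 2 / d * (Real.pi / a) ^ ((d : ℝ) / 2) + ((∫ x, f x) - f 0)) - ε) * N ≤
        minLog d N := by
  have hf0 : 0 ≤ f 0 := by
    rw [hf]
    unfold cosT
    refine integral_nonneg fun ξ => ?_
    simp only [inner_zero_right, Real.cos_zero, mul_one]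
    exact hF0 ξ
  have hc0 := box_zero F f hF hF0 hf hfi
  refine lower_V hd a _ ha ?_ ε hε
  intro ε' hε'
  refine local_V hd (VV a) (fun r _ => VV_nonneg a r ha) (VV_anti a ha) _ _ hc0 hf0 ?_ ε' hε'
  intro δ hδ
  obtain ⟨M, hM, h⟩ := box F f hF hF0 hf hfi δ hδ
  refine ⟨M, hM, fun n K κ p _ hp hinj => ?_⟩
  have h1 := h n K κ p hp
  have h2 : ∑ i, ∑ j, (if κ i = κ j then f (p i - p j) else 0) ≤ n * f 0 + labV (VV a) κ p := by
    have h3 : (n : ℝ) * f 0 = ∑ i : Fin n, ∑ j : Fin n, if i = j then f 0 else 0 := by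
      simp
    rw [h3]
    unfold labV
    rw [← Finset.sum_add_distrib]
    refine Finset.sum_le_sum fun i _ => ?_
    rw [← Finset.sum_add_distrib]
    refine Finset.sum_le_sum fun j _ => ?_
    by_cases hij : i = j
    · subst hij
      simp
    · rw [if_neg hij, zero_add]
      by_cases hk : κ i = κ j
      · rw [if_pos hk, if_pos ⟨hij, hk⟩]
        refine hle _ (sub_ne_zero.2 fun h' => hij (hinj i j hk h'))
      · rw [if_neg hk, if_neg fun h' => hk h'.2]
  linarith

end Pool.Agent.Helper7.LP
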