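import Pool.Agent.Helper7.LP.D24
import Pool.Agent.Helper7.LP.LogB
import Pool.Agent.Helper76.LPB.Gam

/-!
Project LP: the numerical value of the certificate in dimension 24.
-/

set_option autoImplicit false

open MeasureTheory Set Filter Topology

namespace Pool.Agent.Helper7.LP.V24

open Pool.Agent.Helper7.LP.D24

theorem val : (-0.92276 : ℝ) < certC 12 (6 / 5) m0 mm MM := by
  unfold certC
  rw [hP0]
  have h1 : Real.log (2 * (2 * Real.pi) ^ 12 / ((2 * 12 - 1).doubleFactorial : ℕ)) =
      12 * Real.log Real.pi - 25 * Real.log 2 - Real.log (316234143225 / 2 ^ 38) := by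
    have e1 : (2 * (2 * Real.pi) ^ 12 / ((2 * 12 - 1).doubleFactorial : ℕ) : ℝ) =
        Real.pi ^ 12 / 2 ^ 25 / (316234143225 / 2 ^ 38) := by
      simp [Nat.doubleFactorial]
      ring
    rw [e1, Real.log_div (by positivity) (by norm_num), Real.log_div (by positivity)
      (by positivity), Real.log_pow, Real.log_pow]
    push_cast
    ring
  have h2 : Real.log (316234143225 / 2 ^ 38) ≤ 0.140156 :=
    log_le_of _ _ 8 (by norm_num) (by norm_num) (by
      simp only [Finset.sum_range_succ, Finset.sum_range_zero, Nat.factorial]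
      norm_num)
  have h8 : Real.log (6 / 5) ≤ 0.1823216 :=
    log_le_of _ _ 10 (by norm_num) (by norm_num) (by
      simp only [Finset.sum_range_succ, Finset.sum_range_zero, Nat.factorial]
      norm_num)
  have h3 := Pool.Agent.Helper76.LPB.gamma_lt
  have h4 := Pool.Agent.Helper76.LPB.log_pi_gt
  have h5 := Real.log_two_lt_d9
  have h6 := pi_pow_lt 12 (by norm_num)
  have h7 := pi_pow_gt 12 (by norm_num)
  have h9 : (Real.pi / (6 / 5)) ^ 12 = Real.pi ^ 12 * (244140625 / 2176782336) := by
    rw [div_pow]
    ring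
  rw [h1, h9]
  simp only [m0, MM]
  push_cast
  norm_num
  norm_num at h2 h6 h7 h8
  linarith

end Pool.Agent.Helper7.LP.V24
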