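import Pool.Agent.Helper7.LP.V2
import Pool.Agent.Helper7.LP.V4
import Pool.Agent.Helper7.LP.V8
import Pool.Agent.Helper7.LP.V24

/-!
Project LP: the four numerical lower bounds.
-/

set_option autoImplicit false

open MeasureTheory Set Filter Topology

namespace Pool.Agent.Helper7.LP

open Pool.Agent.Helper78.LE

theorem num2 : ∀ᶠ N : ℕ in atTop, Vlog 2 * (N : ℝ) ^ 2 - 1 / ((2 : ℕ) : ℝ) * (N * Real.log N) +
    (-0.0556056) * N ≤ minLog 2 N :=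
  cert_lt 1 one_pos (3 / 4) (by norm_num) D2.m0 D2.mm D2.MM (by norm_num [D2.MM]) N28 D28 ok28
    D2.hQ D2.hR _ V2.val

theorem num4 : ∀ᶠ N : ℕ in atTop, Vlog 4 * (N : ℝ) ^ 2 - 1 / ((4 : ℕ) : ℝ) * (N * Real.log N) +
    (-0.230262) * N ≤ minLog 4 N :=
  cert_lt 2 two_pos (4 / 5) (by norm_num) D4.m0 D4.mm D4.MM (by norm_num [D4.MM]) N28 D28 ok28
    D4.hQ D4.hR _ V4.val

theorem num8 : ∀ᶠ N : ℕ in atTop, Vlog 8 * (N : ℝ) ^ 2 - 1 / ((8 : ℕ) : ℝ) * (N * Real.log N) +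
    (-0.471245) * N ≤ minLog 8 N :=
  cert_lt 4 four_pos (9 / 10) (by norm_num) D8.m0 D8.mm D8.MM (by norm_num [D8.MM]) N24 D24 ok24
    D8.hQ D8.hR _ V8.val

theorem num24 : ∀ᶠ N : ℕ in atTop, Vlog 24 * (N : ℝ) ^ 2 -
    1 / ((24 : ℕ) : ℝ) * (N * Real.log N) + (-0.92276) * N ≤ minLog 24 N :=
  cert_lt 12 (by norm_num) (6 / 5) (by norm_num) D24.m0 D24.mm D24.MM (by norm_num [D24.MM]) N20
    D20 ok20 D24.hQ D24.hR _ V24.val

end Pool.Agent.Helper7.LP
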