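import Pool.Agent.Helper7.LP.Defs

/-!
Project LP: positive definiteness against points and a set of finite volume.
-/

set_option autoImplicit false

open MeasureTheory Set Filter Topology

namespace Pool.Agent.Helper7.LP

open Pool.Agent.Helper78.LE

variable {d : ℕ}

/-- `|F cos| ≤ |F|` -/
theorem cosT_int (F : EV d → ℝ) (hF : Integrable F) (x : EV d) :
    Integrable (fun ξ => F ξ * Real.cos (inner ℝ ξ x)) := by
  refine hF.mul_bdd (c := 1) ?_ ?_
  · exact (Real.continuous_cos.comp (by fun_prop)).aestronglyMeasurable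
  · exact ae_of_all _ fun ξ => by
      rw [Real.norm_eq_abs]
      exact Real.abs_cos_le_one _

theorem pd_cos_int {Y : Type*} [MeasurableSpace Y] (ν : Measure Y) [IsFiniteMeasure ν]
    (g : Y → ℝ) (hg : Measurable g) : Integrable (fun y => Real.cos (g y)) ν := by
  refine (integrable_const (1 : ℝ)).mono' (Real.measurable_cos.comp hg).aestronglyMeasurable ?_
  exact ae_of_all _ fun y => by
    rw [Real.norm_eq_abs]
    exact Real.abs_cos_le_one _

theorem pd_sin_int {Y : Type*} [MeasurableSpace Y] (ν : Measure Y) [IsFiniteMeasure ν]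
    (g : Y → ℝ) (hg : Measurable g) : Integrable (fun y => Real.sin (g y)) ν := by
  refine (integrable_const (1 : ℝ)).mono' (Real.measurable_sin.comp hg).aestronglyMeasurable ?_
  exact ae_of_all _ fun y => by
    rw [Real.norm_eq_abs]
    exact Real.abs_sin_le_one _

theorem pd_int_prod (F : EV d → ℝ) (hF : Integrable F) {Y : Type*} [MeasurableSpace Y]
    (ν : Measure Y) [IsFiniteMeasure ν] (h : Y → EV d) (hh : Measurable h) :
    Integrable (fun z : EV d × Y => F z.1 * Real.cos (inner ℝ z.1 (h z.2))) (volume.prod ν) := by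
  refine (hF.comp_fst ν).mul_bdd (c := 1) ?_ ?_
  · refine (Real.measurable_cos.comp ?_).aestronglyMeasurable
    exact measurable_fst.inner (hh.comp measurable_snd)
  · exact ae_of_all _ fun ξ => by
      rw [Real.norm_eq_abs]
      exact Real.abs_cos_le_one _

theorem pd_swap (F : EV d → ℝ) (hF : Integrable F) {Y : Type*} [MeasurableSpace Y]
    (ν : Measure Y) [IsFiniteMeasure ν] (h : Y → EV d) (hh : Measurable h) :
    ∫ ξ, F ξ * (∫ y, Real.cos (inner ℝ ξ (h y)) ∂ν) = ∫ y, cosT F (h y) ∂ν := by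
  have h1 := pd_int_prod F hF ν h hh
  unfold cosT
  rw [← integral_integral_swap h1]
  refine integral_congr_ae (ae_of_all _ fun ξ => ?_)
  simp only
  rw [integral_const_mul]

theorem pd_swap_int (F : EV d → ℝ) (hF : Integrable F) {Y : Type*} [MeasurableSpace Y]
    (ν : Measure Y) [IsFiniteMeasure ν] (h : Y → EV d) (hh : Measurable h) :
    Integrable (fun ξ => F ξ * (∫ y, Real.cos (inner ℝ ξ (h y)) ∂ν)) := by
  have h1 := (pd_int_prod F hF ν h hh).integral_prod_left
  refine h1.congr (ae_of_all _ fun ξ => ?_)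
  simp only
  rw [integral_const_mul]

theorem posdef (F : EV d → ℝ) (hF : Integrable F) (hF0 : ∀ ξ, 0 ≤ F ξ) {ι : Type*} [Fintype ι]
    (p : ι → EV d) (ν : Measure (EV d)) [IsFiniteMeasure ν] :
    0 ≤ (∑ i, ∑ j, cosT F (p i - p j)) - 2 * (∑ i, ∫ y, cosT F (p i - y) ∂ν) +
      ∫ w : EV d × EV d, cosT F (w.1 - w.2) ∂(ν.prod ν) := by
  have hm : ∀ ξ : EV d, Measurable (fun y : EV d => (inner ℝ ξ y : ℝ)) := fun ξ => by fun_prop
  set C : EV d → ℝ := fun ξ => ∫ y, Real.cos (inner ℝ ξ y) ∂ν with hC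
  set S : EV d → ℝ := fun ξ => ∫ y, Real.sin (inner ℝ ξ y) ∂ν with hS
  -- mixed terms
  have h1 : ∀ (ξ q : EV d), ∫ y, Real.cos (inner ℝ ξ (q - y)) ∂ν =
      Real.cos (inner ℝ ξ q) * C ξ + Real.sin (inner ℝ ξ q) * S ξ := by
    intro ξ q
    rw [hC, hS]
    simp only
    rw [← integral_const_mul, ← integral_const_mul, ← integral_add]
    · refine integral_congr_ae (ae_of_all _ fun y => ?_)
      simp only
      rw [inner_sub_right, Real.cos_sub]
    · exact (pd_cos_int ν _ (hm ξ)).const_mul _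
    · exact (pd_sin_int ν _ (hm ξ)).const_mul _
  have h2 : ∀ ξ : EV d, ∫ w : EV d × EV d, Real.cos (inner ℝ ξ (w.1 - w.2)) ∂(ν.prod ν) =
      C ξ ^ 2 + S ξ ^ 2 := by
    intro ξ
    have e1 : C ξ ^ 2 = ∫ w : EV d × EV d, Real.cos (inner ℝ ξ w.1) * Real.cos (inner ℝ ξ w.2)
        ∂(ν.prod ν) := by
      rw [integral_prod_mul (fun y : EV d => Real.cos (inner ℝ ξ y))
        (fun y : EV d => Real.cos (inner ℝ ξ y)), pow_two]
    have e2 : S ξ ^ 2 = ∫ w : EV d × EV d, Real.sin (inner ℝ ξ w.1) * Real.sin (inner ℝ ξ w.2)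
        ∂(ν.prod ν) := by
      rw [integral_prod_mul (fun y : EV d => Real.sin (inner ℝ ξ y))
        (fun y : EV d => Real.sin (inner ℝ ξ y)), pow_two]
    rw [e1, e2, ← integral_add]
    · refine integral_congr_ae (ae_of_all _ fun w => ?_)
      simp only
      rw [inner_sub_right, Real.cos_sub]
    · exact (pd_cos_int ν _ (hm ξ)).mul_prod (pd_cos_int ν _ (hm ξ))
    · exact (pd_sin_int ν _ (hm ξ)).mul_prod (pd_sin_int ν _ (hm ξ))
  have i1 : ∀ i j, Integrable (fun ξ => F ξ * Real.cos (inner ℝ ξ (p i - p j))) :=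
    fun i j => cosT_int F hF _
  have i2 : ∀ i, Integrable (fun ξ => F ξ * (∫ y, Real.cos (inner ℝ ξ (p i - y)) ∂ν)) :=
    fun i => pd_swap_int F hF ν (fun y => p i - y) (by fun_prop)
  have i3 : Integrable (fun ξ => F ξ * (∫ w : EV d × EV d, Real.cos (inner ℝ ξ (w.1 - w.2))
      ∂(ν.prod ν))) :=
    pd_swap_int F hF (ν.prod ν) (fun w : EV d × EV d => w.1 - w.2) (by fun_prop)
  have key : (∑ i, ∑ j, cosT F (p i - p j)) - 2 * (∑ i, ∫ y, cosT F (p i - y) ∂ν) +
      ∫ w : EV d × EV d, cosT F (w.1 - w.2) ∂(ν.prod ν) =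
      ∫ ξ, F ξ * ((∑ i, Real.cos (inner ℝ ξ (p i)) - C ξ) ^ 2 +
        (∑ i, Real.sin (inner ℝ ξ (p i)) - S ξ) ^ 2) := by
    have a1 : ∑ i, ∑ j, cosT F (p i - p j) =
        ∫ ξ, ∑ i, ∑ j, F ξ * Real.cos (inner ℝ ξ (p i - p j)) := by
      rw [integral_finsetSum _ fun i _ => integrable_finsetSum _ fun j _ => i1 i j]
      refine Finset.sum_congr rfl fun i _ => ?_
      rw [integral_finsetSum _ fun j _ => i1 i j]
      rfl
    have a2 : ∑ i, ∫ y, cosT F (p i - y) ∂ν =
        ∫ ξ, ∑ i, F ξ * (∫ y, Real.cos (inner ℝ ξ (p i - y)) ∂ν) := by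
      rw [integral_finsetSum _ fun i _ => i2 i]
      refine Finset.sum_congr rfl fun i _ => ?_
      exact (pd_swap F hF ν (fun y => p i - y) (by fun_prop)).symm
    have a3 := pd_swap F hF (ν.prod ν) (fun w : EV d × EV d => w.1 - w.2) (by fun_prop)
    rw [a1, a2, ← a3, ← integral_const_mul, ← integral_sub, ← integral_add]
    · refine integral_congr_ae (ae_of_all _ fun ξ => ?_)
      simp only
      rw [h2]
      simp only [h1]
      have b1 : ∑ i, ∑ j, F ξ * Real.cos (inner ℝ ξ (p i - p j)) =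
          F ξ * ((∑ i, Real.cos (inner ℝ ξ (p i))) ^ 2 + (∑ i, Real.sin (inner ℝ ξ (p i))) ^ 2) := by
        rw [pow_two, pow_two, Finset.sum_mul_sum, Finset.sum_mul_sum, ← Finset.sum_add_distrib,
          Finset.mul_sum]
        refine Finset.sum_congr rfl fun i _ => ?_
        rw [← Finset.sum_add_distrib, Finset.mul_sum]
        refine Finset.sum_congr rfl fun j _ => ?_
        rw [inner_sub_right, Real.cos_sub]
      have b2 : ∑ i, F ξ * (Real.cos (inner ℝ ξ (p i)) * C ξ + Real.sin (inner ℝ ξ (p i)) * S ξ) =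
          F ξ * ((∑ i, Real.cos (inner ℝ ξ (p i))) * C ξ +
            (∑ i, Real.sin (inner ℝ ξ (p i))) * S ξ) := by
        rw [← Finset.mul_sum, Finset.sum_add_distrib, Finset.sum_mul, Finset.sum_mul]
      rw [b1, b2]
      ring
    · exact (integrable_finsetSum _ fun i _ => integrable_finsetSum _ fun j _ => i1 i j).sub
        ((integrable_finsetSum _ fun i _ => i2 i).const_mul _)
    · exact i3
    · exact integrable_finsetSum _ fun i _ => integrable_finsetSum _ fun j _ => i1 i j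
    · exact (integrable_finsetSum _ fun i _ => i2 i).const_mul _
  rw [key]
  exact integral_nonneg fun ξ => mul_nonneg (hF0 ξ) (by positivity)

end Pool.Agent.Helper7.LP
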