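import Pool.Agent.Helper7.LP.D2
import Pool.Agent.Helper7.LP.LogB
import Pool.Agent.Helper76.LPB.Gam

/-!
Project LP: the numerical value of the certificate in dimension 2.
-/

set_option autoImplicit false

open MeasureTheory Set Filter Topology

namespace Pool.Agent.Helper7.LP.V2

open Pool.Agent.Helper7.LP.D2

theorem val : (-0.0556056 : ℝ) < certC 1 (3 / 4) m0 mm MM := by
  unfold certC
  rw [hP0]
  have h1 : Real.log (2 * (2 * Real.pi) ^ 1 / ((2 * 1 - 1).doubleFactorial : ℕ)) =
      2 * Real.log 2 + Real.log Real.pi := by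
    have e1 : (2 * (2 * Real.pi) ^ 1 / ((2 * 1 - 1).doubleFactorial : ℕ) : ℝ) =
        2 ^ 2 * Real.pi := by
      simp [Nat.doubleFactorial]
      ring
    rw [e1, Real.log_mul (by positivity) Real.pi_pos.ne', Real.log_pow]
    push_cast
    ring
  have h2 : Real.log (3 / 4) ≤ -0.28768207 :=
    log_le_neg _ _ 12 (by norm_num) (by norm_num) (by norm_num) (by norm_num) (by
      simp only [Finset.sum_range_succ, Finset.sum_range_zero, Nat.factorial]
      norm_num)
  have h3 := Pool.Agent.Helper76.LPB.gamma_lt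
  have h4 := Pool.Agent.Helper76.LPB.log_pi_gt
  have h5 := Real.log_two_gt_d9
  have h6 := Real.pi_lt_d20
  have h7 := Real.pi_gt_d20
  rw [h1]
  simp only [m0, MM]
  push_cast
  norm_num
  norm_num at h2
  linarith

end Pool.Agent.Helper7.LP.V2
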